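import Pool.Agent.Q187.ZD.Real

/-! Real multiple zeta values and a second family with the stuffle product. -/

set_option autoImplicit false

namespace Pool.Agent.Q187.ZD.Padic

open Module
open Pool.Agent.H447R2.MZ

/-- the span of the values `f s` at the admissible indices of weight at most `N` -/
def Sp {M : Type} [AddCommGroup M] [Module ℚ M] (f : List ℕ → M) (N : ℕ) : Submodule ℚ M :=
  Submodule.span ℚ {x | ∃ s : List ℕ, Adm s ∧ s.sum ≤ N ∧ x = f s}

/-- the value at the empty index is `1` and the values at admissible indices satisfy the stuffle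
product -/
def HasStuffle {K : Type} [Field K] (z : List ℕ → K) : Prop :=
  z [] = 1 ∧ ∀ s t, Adm s → Adm t → z s * z t = ((st s t).map z).sum

/-- every polynomial relation between real multiple zeta values is satisfied by `z` -/
def Transfer {K : Type} [Field K] [Algebra ℚ K] (z : List ℕ → K) : Prop :=
  ∀ (m : ℕ) (s : Fin m → List ℕ), (∀ i, Adm (s i)) → ∀ f : MvPolynomial (Fin m) ℚ,
    MvPolynomial.aeval (fun i => val (s i)) f = 0 → MvPolynomial.aeval (fun i => z (s i)) f = 0

section
variable {M : Type} [AddCommGroup M] [Module ℚ M] (f : List ℕ → M)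

theorem Sp_mono {N N' : ℕ} (h : N ≤ N') : Sp f N ≤ Sp f N' := by
  refine Submodule.span_mono ?_
  rintro x ⟨s, hs, h1, rfl⟩
  exact ⟨s, hs, h1.trans h, rfl⟩

theorem mem_Sp {s : List ℕ} (hs : Adm s) {N : ℕ} (h : s.sum ≤ N) : f s ∈ Sp f N :=
  Submodule.subset_span ⟨s, hs, h, rfl⟩

/-- the values in exact weight `j`, over all compositions -/
def Co (j : ℕ) : Submodule ℚ M := Submodule.span ℚ (Set.range fun c : Composition j => f c.blocks)

instance finite_Co (j : ℕ) : FiniteDimensional ℚ (Co f j) :=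
  FiniteDimensional.span_of_finite ℚ (Set.finite_range _)

theorem finrank_Co (j : ℕ) : finrank ℚ (Co f j) ≤ 2 ^ j := by
  refine (finrank_range_le_card _).trans ?_
  rw [composition_card]
  exact Nat.pow_le_pow_right (by norm_num) (by omega)

theorem Sp_le (N : ℕ) : Sp f N ≤ tot (Co f) N := by
  rw [Sp, Submodule.span_le]
  rintro x ⟨s, hs, h1, rfl⟩
  refine le_tot (Co f) h1 (Submodule.subset_span ?_)
  exact ⟨⟨s, fun {i} hi => hs.1 i hi, rfl⟩, rfl⟩

instance finite_Sp (N : ℕ) : FiniteDimensional ℚ (Sp f N) := by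
  have := finite_tot (Co f) (finite_Co f) N
  exact Submodule.finiteDimensional_of_le (Sp_le f N)

theorem finrank_Sp (N : ℕ) : finrank ℚ (Sp f N) ≤ 2 ^ (N + 1) := by
  have := finite_tot (Co f) (finite_Co f) N
  refine (Submodule.finrank_mono (Sp_le f N)).trans ?_
  refine (finrank_tot_le (Co f) (finite_Co f) N).trans ?_
  have : ∀ N, ∑ j ∈ Finset.range (N + 1), finrank ℚ (Co f j) + 1 ≤ 2 ^ (N + 1) := by
    intro N
    induction N with
    | zero =>
      have := finrank_Co f 0
      simp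
      omega
    | succ N ih =>
      have h1 := finrank_Co f (N + 1)
      rw [Finset.sum_range_succ, pow_succ]
      omega
  have := this N
  omega

theorem map_Sp {M' : Type} [AddCommGroup M'] [Module ℚ M'] (g : M →ₗ[ℚ] M') (N : ℕ) :
    (Sp f N).map g = Sp (fun s => g (f s)) N := by
  rw [Sp, Sp, Submodule.map_span]
  congr 1
  ext x
  constructor
  · rintro ⟨_, ⟨s, hs, h1, rfl⟩, rfl⟩
    exact ⟨s, hs, h1, rfl⟩
  · rintro ⟨s, hs, h1, rfl⟩
    exact ⟨_, ⟨s, hs, h1, rfl⟩, rfl⟩

end

section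
variable {K : Type} [Field K] [Algebra ℚ K] (z : List ℕ → K)

/-- the pairs of the real value and the value of `z` -/
noncomputable def pair (s : List ℕ) : ℝ × K := (val s, z s)

theorem val_nil : val [] = 1 := by
  have h : (fun N => Pool.Agent.H447R2.MZ.H [] N) = fun _ => (1 : ℝ) := by
    funext N
    exact H_nil N
  unfold val
  rw [show Pool.Agent.H447R2.MZ.H [] = fun _ => (1 : ℝ) from h]
  exact ciSup_const

variable (hz : HasStuffle z)
include hz

omit [Algebra ℚ K] in
theorem pair_nil : pair z [] = 1 := by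
  rw [pair, val_nil, hz.1]
  rfl

omit [Algebra ℚ K] hz in
theorem pair_sum (L : List (List ℕ)) : ((L.map val).sum, (L.map z).sum) = (L.map (pair z)).sum := by
  induction L with
  | nil => rfl
  | cons s L ih =>
    rw [List.map_cons, List.map_cons, List.map_cons, List.sum_cons, List.sum_cons, List.sum_cons,
      ← ih]
    rfl

omit [Algebra ℚ K] in
theorem pair_mul {s t : List ℕ} (hs : Adm s) (ht : Adm t) :
    pair z s * pair z t = ((st s t).map (pair z)).sum := by
  rw [← pair_sum z, ← val_mul s t hs ht, ← hz.2 s t hs ht]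
  rfl

theorem W_mul {a b : ℕ} {x y : ℝ × K} (hx : x ∈ Sp (pair z) a) (hy : y ∈ Sp (pair z) b) :
    x * y ∈ Sp (pair z) (a + b) := by
  have hab : Sp (pair z) a * Sp (pair z) b ≤ Sp (pair z) (a + b) := by
    rw [Sp, Sp, Submodule.span_mul_span, Submodule.span_le]
    rintro _ ⟨_, ⟨s, hs, hsa, rfl⟩, _, ⟨t, ht, htb, rfl⟩, rfl⟩
    simp only [SetLike.mem_coe]
    rw [pair_mul z hz hs ht]
    refine list_sum_mem fun w hw => ?_
    rw [List.mem_map] at hw
    obtain ⟨u, hu, rfl⟩ := hw
    refine mem_Sp _ (st_adm s t hs ht u hu) ?_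
    rw [st_sum s t u hu]
    omega
  exact hab (Submodule.mul_mem_mul hx hy)

theorem poly_mem {m : ℕ} (s : Fin m → List ℕ) (hs : ∀ i, Adm (s i))
    (f : MvPolynomial (Fin m) ℚ) :
    ∃ N, MvPolynomial.aeval (fun i => pair z (s i)) f ∈ Sp (pair z) N := by
  induction f using MvPolynomial.induction_on with
  | C q =>
    refine ⟨0, ?_⟩
    rw [MvPolynomial.aeval_C, Algebra.algebraMap_eq_smul_one, ← pair_nil z hz]
    refine Submodule.smul_mem _ _ (mem_Sp _ ⟨by simp, by simp⟩ (by simp))
  | add f g hf hg =>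
    obtain ⟨a, ha⟩ := hf
    obtain ⟨b, hb⟩ := hg
    refine ⟨a + b, ?_⟩
    rw [map_add]
    exact add_mem (Sp_mono _ (by omega) ha) (Sp_mono _ (by omega) hb)
  | mul_X f i hf =>
    obtain ⟨a, ha⟩ := hf
    refine ⟨a + (s i).sum, ?_⟩
    rw [map_mul, MvPolynomial.aeval_X]
    exact W_mul z hz ha (mem_Sp _ (hs i) le_rfl)

theorem transfer_iff :
    Transfer z ↔ ∀ N, ∀ w ∈ Sp (pair z) N, w.1 = 0 → w = 0 := by
  constructor
  · intro h N w hw h0
    obtain ⟨n, q, g, rfl⟩ := (Submodule.mem_span_set').1 hw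
    choose s hs _ hg using fun i => (g i).2
    have e : ∀ i, ((g i : _) : ℝ × K) = pair z (s i) := hg
    have h1 := h n s hs (∑ i, MvPolynomial.C (q i) * MvPolynomial.X i) (by
      rw [map_sum]
      rw [Prod.fst_sum] at h0
      rw [← h0]
      refine Finset.sum_congr rfl fun i _ => ?_
      rw [map_mul, MvPolynomial.aeval_C, MvPolynomial.aeval_X, e i, Algebra.algebraMap_eq_smul_one,
        smul_mul_assoc, one_mul]
      rfl)
    refine Prod.ext h0 ?_
    rw [Prod.snd_sum, Prod.snd_zero, ← h1, map_sum]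
    refine Finset.sum_congr rfl fun i _ => ?_
    rw [map_mul, MvPolynomial.aeval_C, MvPolynomial.aeval_X, e i, Algebra.algebraMap_eq_smul_one,
      smul_mul_assoc, one_mul]
    rfl
  · intro h m s hs f h0
    obtain ⟨N, hN⟩ := poly_mem z hz s hs f
    have h1 : (MvPolynomial.aeval (fun i => pair z (s i)) f).1 =
        MvPolynomial.aeval (fun i => val (s i)) f := by
      have := MvPolynomial.comp_aeval_apply (fun i => pair z (s i)) (AlgHom.fst ℚ ℝ K) f
      exact this
    have h2 : (MvPolynomial.aeval (fun i => pair z (s i)) f).2 =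
        MvPolynomial.aeval (fun i => z (s i)) f := by
      have := MvPolynomial.comp_aeval_apply (fun i => pair z (s i)) (AlgHom.snd ℚ ℝ K) f
      exact this
    have h3 := h N _ hN (by rw [h1, h0])
    rw [← h2, h3]
    rfl

omit hz in
theorem dim_split (N : ℕ) :
    finrank ℚ (Sp (pair z) N) = finrank ℚ (Sp val N) +
      finrank ℚ (LinearMap.ker ((LinearMap.fst ℚ ℝ K).domRestrict (Sp (pair z) N))) := by
  have h1 := LinearMap.finrank_range_add_finrank_ker
    ((LinearMap.fst ℚ ℝ K).domRestrict (Sp (pair z) N))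
  have h2 : LinearMap.range ((LinearMap.fst ℚ ℝ K).domRestrict (Sp (pair z) N)) =
      (Sp (pair z) N).map (LinearMap.fst ℚ ℝ K) := by
    ext y
    simp only [LinearMap.mem_range, LinearMap.domRestrict_apply, Subtype.exists, exists_prop,
      Submodule.mem_map]
  rw [h2, map_Sp] at h1
  exact h1.symm

/-- a relation in weight at most `k` which fails for `z` -/
theorem drop {k N : ℕ} (hk : k ≤ N) {w : ℝ × K} (hw : w ∈ Sp (pair z) k) (h0 : w.1 = 0)
    (hw0 : w ≠ 0) :
    finrank ℚ (Sp val N) + finrank ℚ (Sp z (N - k)) ≤ finrank ℚ (Sp (pair z) N) := by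
  rw [dim_split z N]
  have hw2 : w.2 ≠ 0 := fun h => hw0 (Prod.ext h0 h)
  have hmem : ∀ u ∈ Sp z (N - k), ((0 : ℝ), w.2 * u) ∈ Sp (pair z) N := by
    intro u hu
    have e : (Sp (pair z) (N - k)).map (LinearMap.snd ℚ ℝ K) = Sp z (N - k) := map_Sp _ _ _
    rw [← e] at hu
    obtain ⟨v, hv, rfl⟩ := hu
    have h1 := W_mul z hz hw hv
    rw [Nat.add_sub_cancel' hk] at h1
    have h2 : w * v = ((0 : ℝ), w.2 * v.2) :=
      Prod.ext (by change w.1 * v.1 = 0; rw [h0, zero_mul]) rfl
    rw [h2] at h1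
    exact h1
  let g : Sp z (N - k) →ₗ[ℚ] LinearMap.ker ((LinearMap.fst ℚ ℝ K).domRestrict (Sp (pair z) N)) :=
    { toFun := fun u => ⟨⟨((0 : ℝ), w.2 * u.1), hmem _ u.2⟩, by
        rw [LinearMap.mem_ker, LinearMap.domRestrict_apply]
        rfl⟩
      map_add' := fun u v => by
        ext <;> simp [mul_add]
      map_smul' := fun t u => by
        ext <;> simp }
  have hg : Function.Injective g := by
    intro u v huv
    have h3 : w.2 * (u : K) = w.2 * (v : K) := by
      have := congrArg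
        (fun x : LinearMap.ker ((LinearMap.fst ℚ ℝ K).domRestrict (Sp (pair z) N)) =>
          ((x : Sp (pair z) N) : ℝ × K).2) huv
      exact this
    exact Subtype.ext (mul_left_cancel₀ hw2 h3)
  have h4 := LinearMap.finrank_le_finrank_of_injective hg
  omega

theorem eq_of_transfer (h : Transfer z) (N : ℕ) :
    finrank ℚ (Sp (pair z) N) = finrank ℚ (Sp val N) := by
  rw [transfer_iff z hz] at h
  have h1 := finrank_map_inj (LinearMap.fst ℚ ℝ K) (Sp (pair z) N) (fun x hx h0 => h N x hx h0)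
  rw [map_Sp] at h1
  exact h1.symm

theorem pos (N : ℕ) : 1 ≤ finrank ℚ (Sp z N) := by
  have h1 : (1 : K) ∈ Sp z N := by
    rw [← hz.1]
    exact mem_Sp z ⟨by simp, by simp⟩ (by simp)
  have : 0 < finrank ℚ (Sp z N) := by
    rw [Module.finrank_pos_iff]
    exact ⟨⟨⟨1, h1⟩, 0, fun h => one_ne_zero (congrArg Subtype.val h)⟩⟩
  omega

theorem counts : Transfer z ↔ ∀ k, ∃ N, k ≤ N ∧
    finrank ℚ (Sp (pair z) N) < finrank ℚ (Sp val N) + finrank ℚ (Sp z (N - k)) := by
  constructor
  · intro h k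
    refine ⟨k, le_rfl, ?_⟩
    rw [eq_of_transfer z hz h]
    have := pos z hz (k - k)
    omega
  · intro h
    rw [transfer_iff z hz]
    intro k w hw h0
    by_contra hw0
    obtain ⟨N, hN, h1⟩ := h k
    have := drop z hz hN hw h0 hw0
    omega

theorem limit : Transfer z ↔ Filter.Tendsto (fun N => ((finrank ℚ (Sp (pair z) N) : ℝ) -
    finrank ℚ (Sp val N)) / finrank ℚ (Sp z N)) Filter.atTop (nhds 0) := by
  constructor
  · intro h
    have : (fun N => ((finrank ℚ (Sp (pair z) N) : ℝ) - finrank ℚ (Sp val N)) /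
        finrank ℚ (Sp z N)) = fun _ => 0 := by
      funext N
      rw [eq_of_transfer z hz h N, sub_self, zero_div]
    rw [this]
    exact tendsto_const_nhds
  · intro ht
    rw [transfer_iff z hz]
    intro k w hw h0
    by_contra hw0
    have hε : (0 : ℝ) < (2 ^ (k + 1) : ℝ)⁻¹ := by positivity
    have h1 := (tendsto_order.1 ht).2 _ hε
    rw [Filter.eventually_atTop] at h1
    obtain ⟨N₀, hN₀⟩ := h1
    obtain ⟨N, hN, h2⟩ := growth (fun N => finrank ℚ (Sp z N)) (pos z hz) (finrank_Sp z) k N₀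
    have h3 := hN₀ (N + k) (by omega)
    have h4 := drop z hz (N := N + k) (by omega) hw h0 hw0
    rw [Nat.add_sub_cancel] at h4
    have h5 : (finrank ℚ (Sp val (N + k)) : ℝ) + finrank ℚ (Sp z N) ≤
        finrank ℚ (Sp (pair z) (N + k)) := by exact_mod_cast h4
    have h6 : (finrank ℚ (Sp z (N + k)) : ℝ) < 2 ^ (k + 1) * finrank ℚ (Sp z N) := by
      exact_mod_cast h2
    have h7 : (0 : ℝ) < finrank ℚ (Sp z (N + k)) := by exact_mod_cast pos z hz (N + k)
    rw [div_lt_iff₀ h7] at h3
    have h8 : (2 ^ (k + 1) : ℝ)⁻¹ * finrank ℚ (Sp z (N + k)) < finrank ℚ (Sp z N) := by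
      rw [inv_mul_lt_iff₀ (by positivity)]
      exact h6
    linarith

end

end Pool.Agent.Q187.ZD.Padic
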