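import Pool.Agent.Q187.ZD.Mot

/-! Zagier's conjecture from dimension counts. -/

set_option autoImplicit false

namespace Pool.Agent.Q187.ZD

open Module

variable {H : Type} [CommRing H] [Algebra ℚ H] {d : ℕ → ℕ} {Z : ℕ → Submodule ℚ ℝ}
  {gr : ℕ → Submodule ℚ H} {per : H →ₐ[ℚ] ℝ}

theorem indep_of_all (h : ∀ p, Dir Z p) : iSupIndep Z := indep_of_dir h

theorem zagier_iff (hd : IsZagier d) (hm : IsMotivic d Z gr per) :
    ((∀ j, finrank ℚ (Z j) = d j) ∧ iSupIndep Z) ↔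
      ∀ p, ∃ N, p ≤ N ∧ S d N < finrank ℚ (tot Z N) + S d (N - p) := by
  constructor
  · rintro ⟨h1, h2⟩ p
    refine ⟨p, le_rfl, ?_⟩
    rw [full hm h1 h2]
    have := S_pos hd (p - p)
    omega
  · intro h
    have key : ∀ p, (∀ j ≤ p, finrank ℚ (Z j) = d j) ∧ Dir Z p := by
      intro p
      obtain ⟨N, hN, h1⟩ := h p
      exact up_to hm hN h1
    exact ⟨fun j => (key j).1 j le_rfl, indep_of_dir fun p => (key p).2⟩

/-- if the conjecture fails in weights at most `p`, a fixed share of the dimension is missing -/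
theorem zagier_defect (hd : IsZagier d) (hm : IsMotivic d Z gr per) {p : ℕ}
    (h : ¬ ((∀ j ≤ p, finrank ℚ (Z j) = d j) ∧ Dir Z p)) {N : ℕ} (hN : p ≤ N) :
    (finrank ℚ (tot Z N) : ℝ) ≤ (1 - (2 ^ p : ℝ)⁻¹) * S d N := by
  have h1 : ¬ S d N < finrank ℚ (tot Z N) + S d (N - p) := fun h2 => h (up_to hm hN h2)
  have h2 := S_pow hd (N - p) p
  rw [Nat.sub_add_cancel hN] at h2
  have h3 : (finrank ℚ (tot Z N) : ℝ) + S d (N - p) ≤ S d N := by exact_mod_cast not_lt.1 h1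
  have h4 : (S d N : ℝ) ≤ 2 ^ p * S d (N - p) := by exact_mod_cast h2
  have h5 : (2 ^ p : ℝ)⁻¹ * S d N ≤ S d (N - p) := by
    rw [inv_mul_le_iff₀ (by positivity)]
    exact h4
  linarith

theorem zagier_limsup (hd : IsZagier d) (hm : IsMotivic d Z gr per) :
    ((∀ j, finrank ℚ (Z j) = d j) ∧ iSupIndep Z) ↔
      ∀ ε : ℝ, 0 < ε → ∀ N₀, ∃ N ≥ N₀, (1 - ε) * S d N ≤ finrank ℚ (tot Z N) := by
  constructor
  · rintro ⟨h1, h2⟩ ε hε N₀
    refine ⟨N₀, le_rfl, ?_⟩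
    rw [full hm h1 h2]
    have : (0 : ℝ) ≤ S d N₀ := by positivity
    nlinarith
  · intro h
    have key : ∀ p, (∀ j ≤ p, finrank ℚ (Z j) = d j) ∧ Dir Z p := by
      intro p
      by_contra hp
      have hpos : (0 : ℝ) < (2 ^ p : ℝ)⁻¹ := by positivity
      obtain ⟨N, hN, h1⟩ := h ((2 ^ p : ℝ)⁻¹ / 2) (by positivity) p
      have h2 := zagier_defect hd hm hp hN
      have h3 : (1 : ℝ) ≤ S d N := by exact_mod_cast S_pos hd N
      nlinarith
    exact ⟨fun j => (key j).1 j le_rfl, indep_of_dir fun p => (key p).2⟩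

/-- homogeneous form: a failure in weight `k` forces a failure in all larger weights -/
theorem weight_defect (hm : IsMotivic d Z gr per) {k : ℕ} (h : finrank ℚ (Z k) ≠ d k) {N : ℕ}
    (hN : k ≤ N) : finrank ℚ (Z N) + d (N - k) ≤ d N := by
  by_contra h1
  exact h (at_weight hm hN (not_le.1 h1))

theorem weight_share (hd : IsZagier d) (hm : IsMotivic d Z gr per) {k : ℕ}
    (h : finrank ℚ (Z k) ≠ d k) {N : ℕ} (hN : k + 2 ≤ N) :
    (finrank ℚ (Z N) : ℝ) ≤ (1 - (2 ^ k : ℝ)⁻¹) * d N := by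
  have h1 := weight_defect hm h (by omega : k ≤ N)
  have h2 := d_pow hd (by omega : 2 ≤ N - k) k
  rw [Nat.sub_add_cancel (by omega)] at h2
  have h3 : (finrank ℚ (Z N) : ℝ) + d (N - k) ≤ d N := by exact_mod_cast h1
  have h4 : (d N : ℝ) ≤ 2 ^ k * d (N - k) := by exact_mod_cast h2
  have h5 : (2 ^ k : ℝ)⁻¹ * d N ≤ d (N - k) := by
    rw [inv_mul_le_iff₀ (by positivity)]
    exact h4
  linarith

theorem dims_infinite (hd : IsZagier d) (hm : IsMotivic d Z gr per) :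
    (∀ j, finrank ℚ (Z j) = d j) ↔ {N | finrank ℚ (Z N) = d N}.Infinite := by
  constructor
  · intro h
    have : {N | finrank ℚ (Z N) = d N} = Set.univ := Set.eq_univ_of_forall h
    rw [this]
    exact Set.infinite_univ
  · intro h k
    by_contra hk
    obtain ⟨N, hN, hlt⟩ := h.exists_gt (k + 2)
    have h1 := weight_defect hm hk (by omega : k ≤ N)
    have h2 := d_pos hd (by omega : 2 ≤ N - k)
    have h3 : finrank ℚ (Z N) = d N := hN
    omega

theorem dims_limsup (hd : IsZagier d) (hm : IsMotivic d Z gr per) :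
    (∀ j, finrank ℚ (Z j) = d j) ↔
      ∀ ε : ℝ, 0 < ε → ∀ N₀, ∃ N ≥ N₀, (1 - ε) * d N ≤ finrank ℚ (Z N) := by
  constructor
  · intro h ε hε N₀
    refine ⟨N₀, le_rfl, ?_⟩
    rw [h N₀]
    have : (0 : ℝ) ≤ d N₀ := by positivity
    nlinarith
  · intro h k
    by_contra hk
    have hpos : (0 : ℝ) < (2 ^ k : ℝ)⁻¹ := by positivity
    obtain ⟨N, hN, h1⟩ := h ((2 ^ k : ℝ)⁻¹ / 2) (by positivity) (k + 2)
    have h2 := weight_share hd hm hk hN
    have h3 : (1 : ℝ) ≤ d N := by exact_mod_cast d_pos hd (by omega : 2 ≤ N)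
    nlinarith

end Pool.Agent.Q187.ZD
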