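import Pool.Agent.Q187.ZD.HofMain
import Pool.Agent.Q187.ZD.Zag

/-! The period map of mixed Tate motives over the integers. -/

set_option autoImplicit false

namespace Pool.Agent.Q187.ZD.MT

open Module
open Pool.Agent.H447R2.MZ (val Zs)
open Pool.Agent.Q187.ZD.Hof

/-- Known facts on the ring `P` of motivic periods of mixed Tate motives over the integers and the
algebra `H` of motivic multiple zeta values: `ι : H → P` is the inclusion, `L` the motivic period
of `2 π i`, every element of `P` times a power of `L` is of the form `a + b L` with `a, b` in `H`,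
and the period map `per` has real values on `H`, where it is `per'`. -/
structure IsFull {P H : Type} [CommRing P] [Algebra ℚ P] [CommRing H] [Algebra ℚ H]
    (ι : H →ₐ[ℚ] P) (L : P) (per : P →ₐ[ℚ] ℂ) (per' : H →ₐ[ℚ] ℝ) : Prop where
  inj : Function.Injective ι
  unit : IsUnit L
  perL : per L = 2 * Real.pi * Complex.I
  real : ∀ x, per (ι x) = (per' x : ℂ)
  generate : ∀ x : P, ∃ (n : ℕ) (a b : H), L ^ n * x = ι a + ι b * L

section
variable {P H : Type} [CommRing P] [Algebra ℚ P] [CommRing H] [Algebra ℚ H]
  {ι : H →ₐ[ℚ] P} {L : P} {per : P →ₐ[ℚ] ℂ} {per' : H →ₐ[ℚ] ℝ}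

theorem injective_iff (h : IsFull ι L per per') :
    Function.Injective per ↔ Function.Injective per' := by
  constructor
  · intro hi
    rw [injective_iff_map_eq_zero]
    intro x hx
    apply h.inj
    apply hi
    rw [map_zero, map_zero, h.real, hx]
    rfl
  · intro hi
    rw [injective_iff_map_eq_zero]
    intro x hx
    obtain ⟨n, a, b, hab⟩ := h.generate x
    have h1 : per (ι a + ι b * L) = 0 := by
      rw [← hab, map_mul, hx, mul_zero]
    rw [map_add, map_mul, h.real, h.real, h.perL] at h1
    have him := congrArg Complex.im h1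
    have hre := congrArg Complex.re h1
    simp at him hre
    have hb : b = 0 := by
      apply hi
      rw [map_zero]
      exact him
    have ha : a = 0 := by
      apply hi
      rw [map_zero]
      exact hre
    rw [ha, hb, map_zero, zero_mul, add_zero] at hab
    exact (((h.unit.pow n).mul_right_eq_zero).1 hab)

variable {gr : ℕ → Submodule ℚ H}
  (hm : IsMotivic (fun n => (words n).card) Zs gr per') (he : ∀ x : H, ∃ N, x ∈ tot gr N)

include hm in
theorem tot_of_inj (hi : Function.Injective per') (N : ℕ) :
    finrank ℚ (tot Zs N) = S (fun n => (words n).card) N := by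
  have h1 := finrank_map_inj per'.toLinearMap (tot gr N) (fun x _ hx => hi (by
    rw [map_zero]
    exact hx))
  rw [map_tot_mot hm, finrank_tot_mot hm] at h1
  exact h1

include hm he in
theorem inj_of_tot (h : ∀ N, finrank ℚ (tot Zs N) = S (fun n => (words n).card) N) :
    Function.Injective per' := by
  have := hm.domain
  rw [injective_iff_map_eq_zero]
  intro x hx
  obtain ⟨p, hp⟩ := he x
  refine inj_tot per' hm.mul hm.finite (le_refl p) ?_ hp hx
  rw [map_tot_mot hm, finrank_tot_mot hm, finrank_tot_mot hm, h p]
  have := S_pos isZagier (p - p)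
  omega

include hm in
theorem basis_of_inj (hB : Brown) (hi : Function.Injective per') : IsBasis := by
  refine ⟨?_, spans hB⟩
  have h2 := Hof.indep_of_all (s := fun p => (upTo p : Set (List ℕ)))
    (fun p q hpq w hw => by
      rw [Finset.mem_coe, mem_upTo] at hw ⊢
      exact ⟨hw.1, hw.2.trans hpq⟩)
    (fun p => indepOn_of_card (by rw [span_upTo hB, tot_of_inj hm hi, card_upTo]))
  refine h2.mono fun w hw => ?_
  rw [Set.mem_iUnion]
  exact ⟨w.sum, Finset.mem_coe.2 ((mem_upTo w _).2 ⟨hw, le_rfl⟩)⟩

include hm he in
theorem inj_of_basis (hb : IsBasis) : Function.Injective per' := by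
  refine inj_of_tot hm he fun N => ?_
  have hfin : FiniteDimensional ℚ (tot Zs N) := finite_tot Zs (fun j => finite_Zs j) N
  have h1 : (upTo N).card ≤ finrank ℚ (tot Zs N) := by
    refine card_le (hb.1.mono fun w hw => ((mem_upTo w N).1 hw).1) (tot Zs N) fun w hw => ?_
    obtain ⟨h1, h2⟩ := (mem_upTo w N).1 hw
    exact le_tot Zs h2 (Pool.Agent.H447R2.MZ.val_mem w (adm_of_word h1))
  have h2 : finrank ℚ (tot Zs N) ≤ S (fun n => (words n).card) N := by
    have := finite_tot gr hm.finite N
    rw [← map_tot_mot hm, ← finrank_tot_mot hm]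
    exact Submodule.finrank_map_le _ _
  rw [card_upTo] at h1
  omega

include hm he

theorem inj_iff_basis (hB : Brown) : Function.Injective per' ↔ IsBasis :=
  ⟨fun hi => basis_of_inj hm hB hi, fun hb => inj_of_basis hm he hb⟩

theorem inj_iff_zagier : Function.Injective per' ↔
    ((∀ j, finrank ℚ (Zs j) = (words j).card) ∧ iSupIndep Zs) := by
  constructor
  · intro hi
    have h1 : ∀ p, ∃ N, p ≤ N ∧ S (fun n => (words n).card) N <
        finrank ℚ (tot Zs N) + S (fun n => (words n).card) (N - p) := by
      intro p
      refine ⟨p, le_rfl, ?_⟩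
      rw [tot_of_inj hm hi]
      have := S_pos isZagier (p - p)
      omega
    exact (zagier_iff isZagier hm).2 h1
  · rintro ⟨h1, h2⟩
    exact inj_of_tot hm he fun N => full hm h1 h2

end

end Pool.Agent.Q187.ZD.MT
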