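import Pool.Agent.Q187.ZD.Main
import Pool.Agent.H447R2.MZ.Tup

/-! Spaces of multiple zeta values: finiteness, the polynomial model, directness. -/

set_option autoImplicit false

namespace Pool.Agent.Q187.ZD

open Module Polynomial
open Pool.Agent.H447R2.MZ

theorem Zs_le_comp (n : ℕ) :
    Zs n ≤ Submodule.span ℚ (Set.range fun c : Composition n => val c.blocks) := by
  rw [Zs_eq]
  refine Submodule.span_mono ?_
  rintro x ⟨s, hs, hn, rfl⟩
  exact ⟨⟨s, fun {i} hi => hs.1 i hi, hn⟩, rfl⟩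

instance finite_comp (n : ℕ) : FiniteDimensional ℚ
    (Submodule.span ℚ (Set.range fun c : Composition n => val c.blocks)) :=
  FiniteDimensional.span_of_finite ℚ (Set.finite_range _)

instance finite_Zs (n : ℕ) : FiniteDimensional ℚ (Zs n) :=
  Submodule.finiteDimensional_of_le (Zs_le_comp n)

theorem finrank_Zs_le (n : ℕ) : finrank ℚ (Zs n) ≤ 2 ^ n := by
  refine (Submodule.finrank_mono (Zs_le_comp n)).trans ?_
  refine (finrank_range_le_card _).trans ?_
  rw [composition_card]
  exact Nat.pow_le_pow_right (by norm_num) (by omega)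

/-- `ℝ → ℝ[X]`, `z ↦ z X^j`, as a `ℚ`-linear map -/
noncomputable def mon (j : ℕ) : ℝ →ₗ[ℚ] ℝ[X] := (monomial j).restrictScalars ℚ

theorem mon_apply (j : ℕ) (z : ℝ) : mon j z = monomial j z := rfl

/-- the graded algebra of multiple zeta values inside `ℝ[X]` -/
noncomputable def gz (j : ℕ) : Submodule ℚ ℝ[X] := (Zs j).map (mon j)

theorem gz_mul (i j : ℕ) : ∀ x ∈ gz i, ∀ y ∈ gz j, x * y ∈ gz (i + j) := by
  rintro _ ⟨a, ha, rfl⟩ _ ⟨b, hb, rfl⟩
  refine ⟨a * b, mul_mem i j a b ha hb, ?_⟩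
  rw [mon_apply, mon_apply, mon_apply, monomial_mul_monomial]

instance finite_gz (j : ℕ) : FiniteDimensional ℚ (gz j) := by
  unfold gz
  infer_instance

theorem finrank_gz (j : ℕ) : finrank ℚ (gz j) = finrank ℚ (Zs j) := by
  refine finrank_map_inj (mon j) (Zs j) fun x _ hx => ?_
  rw [mon_apply] at hx
  exact (monomial_eq_zero_iff _ _).1 hx

theorem indep_gz : iSupIndep gz := by
  refine indep_of_dir fun p z hz h0 j hj => ?_
  have h1 : ∀ i ≤ p, ∀ m, m ≠ i → (z i).coeff m = 0 := by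
    intro i hi m hm
    obtain ⟨a, -, ha⟩ := hz i hi
    rw [← ha, mon_apply, coeff_monomial, if_neg (Ne.symm hm)]
  have h2 : (z j).coeff j = 0 := by
    have h3 := congrArg (fun P : ℝ[X] => P.coeff j) h0
    simp only [finsetSum_coeff, coeff_zero] at h3
    rw [Finset.sum_eq_single j] at h3
    · exact h3
    · intro i hi hij
      rw [Finset.mem_range] at hi
      exact h1 i (by omega) j (Ne.symm hij)
    · intro h
      exact absurd (Finset.mem_range.2 (by omega)) h
  ext m
  by_cases hm : m = j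
  · rw [hm, h2, coeff_zero]
  · rw [h1 j hj m hm, coeff_zero]

/-- evaluation at `1` -/
noncomputable def ev : ℝ[X] →ₐ[ℚ] ℝ := (aeval (1 : ℝ)).restrictScalars ℚ

theorem ev_mon (j : ℕ) (z : ℝ) : ev (mon j z) = z := by
  change aeval (1 : ℝ) (monomial j z) = z
  rw [aeval_monomial]
  simp

theorem map_gz (j : ℕ) : (gz j).map ev.toLinearMap = Zs j := by
  rw [gz, ← Submodule.map_comp]
  have : ev.toLinearMap ∘ₗ mon j = LinearMap.id := by
    ext z
    exact ev_mon j z
  rw [this, Submodule.map_id]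

theorem map_tot_gz (N : ℕ) : (tot gz N).map ev.toLinearMap = tot Zs N := by
  rw [map_tot]
  congr 1
  funext j
  exact map_gz j

theorem finrank_tot_gz (N : ℕ) :
    finrank ℚ (tot gz N) = ∑ j ∈ Finset.range (N + 1), finrank ℚ (Zs j) := by
  rw [finrank_tot gz indep_gz finite_gz]
  exact Finset.sum_congr rfl fun j _ => finrank_gz j

/-- the dimension drops if the sum is not direct -/
theorem drop_real {p N : ℕ} (hp : p ≤ N) (h : ¬ Dir Zs p) :
    finrank ℚ (tot Zs N) + ∑ j ∈ Finset.range (N - p + 1), finrank ℚ (Zs j) ≤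
      ∑ j ∈ Finset.range (N + 1), finrank ℚ (Zs j) := by
  by_contra hcon
  apply h
  have key : ∀ x ∈ tot gz p, ev.toLinearMap x = 0 → x = 0 := by
    intro x hx h0
    refine inj_tot ev gz_mul finite_gz hp ?_ hx h0
    rw [map_tot_gz, finrank_tot_gz, finrank_tot_gz]
    omega
  have := dir_map ev.toLinearMap (dir_of_indep indep_gz p) key
  have e : (fun j => (gz j).map ev.toLinearMap) = Zs := funext map_gz
  rwa [e] at this

theorem eq_of_dir (h : ∀ p, Dir Zs p) (N : ℕ) :
    finrank ℚ (tot Zs N) = ∑ j ∈ Finset.range (N + 1), finrank ℚ (Zs j) :=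
  finrank_tot Zs (indep_of_dir h) (fun j => finite_Zs j) N

/-- the sum of the dimensions of the spaces of weight at most `N` -/
noncomputable def D (N : ℕ) : ℕ := ∑ j ∈ Finset.range (N + 1), finrank ℚ (Zs j)

theorem D_pos (N : ℕ) : 1 ≤ D N := by
  have h1 : finrank ℚ (Zs 0) ≤ D N :=
    Finset.single_le_sum (f := fun j => finrank ℚ (Zs j)) (fun _ _ => Nat.zero_le _)
      (Finset.mem_range.2 (Nat.succ_pos N))
  have h2 : 0 < finrank ℚ (Zs 0) := by
    rw [Module.finrank_pos_iff]
    exact ⟨⟨⟨1, one_mem⟩, 0, fun h => one_ne_zero (congrArg Subtype.val h)⟩⟩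
  omega

theorem D_le (N : ℕ) : D N ≤ 2 ^ (N + 1) := by
  have : ∀ N, D N + 1 ≤ 2 ^ (N + 1) := by
    intro N
    induction N with
    | zero =>
      have := finrank_Zs_le 0
      simp [D]
      omega
    | succ N ih =>
      have h1 := finrank_Zs_le (N + 1)
      rw [D] at ih ⊢
      rw [Finset.sum_range_succ, pow_succ]
      omega
  have := this N
  omega

/-- the three equivalent forms -/
theorem tfae_real :
    ((∀ p, Dir Zs p) ↔ ∀ p, ∃ N, p ≤ N ∧ D N < finrank ℚ (tot Zs N) + D (N - p)) ∧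
    ((∀ p, Dir Zs p) ↔ Filter.Tendsto (fun N => (finrank ℚ (tot Zs N) : ℝ) / D N)
      Filter.atTop (nhds 1)) := by
  refine ⟨⟨fun h p => ⟨p, le_rfl, ?_⟩, fun h p => ?_⟩, ⟨fun h => ?_, fun h p => ?_⟩⟩
  · have := eq_of_dir h p
    have h1 := D_pos (p - p)
    rw [D, D] at *
    omega
  · by_contra hp
    obtain ⟨N, hN, h1⟩ := h p
    have := drop_real hN hp
    rw [D, D] at h1
    omega
  · have : (fun N => (finrank ℚ (tot Zs N) : ℝ) / D N) = fun _ => 1 := by
      funext N
      rw [eq_of_dir h N]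
      have := D_pos N
      rw [D] at *
      exact div_self (by positivity)
    rw [this]
    exact tendsto_const_nhds
  · by_contra hp
    have hε : (0 : ℝ) < (2 ^ (p + 1) : ℝ)⁻¹ := by positivity
    have h1 := (tendsto_order.1 h).1 (1 - (2 ^ (p + 1) : ℝ)⁻¹) (by linarith)
    rw [Filter.eventually_atTop] at h1
    obtain ⟨N₀, hN₀⟩ := h1
    obtain ⟨N, hN, h2⟩ := growth D D_pos D_le p N₀
    have h3 := hN₀ (N + p) (by omega)
    have h4 := drop_real (N := N + p) (by omega) hp
    rw [Nat.add_sub_cancel] at h4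
    have h5 : (finrank ℚ (tot Zs (N + p)) : ℝ) + D N ≤ D (N + p) := by exact_mod_cast h4
    have h6 : (D (N + p) : ℝ) < 2 ^ (p + 1) * D N := by exact_mod_cast h2
    have h7 : (0 : ℝ) < D (N + p) := by exact_mod_cast D_pos (N + p)
    rw [lt_div_iff₀ h7] at h3
    have h8 : (2 ^ (p + 1) : ℝ)⁻¹ * D (N + p) < D N := by
      rw [inv_mul_lt_iff₀ (by positivity)]
      exact h6
    nlinarith

end Pool.Agent.Q187.ZD
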