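import Pool.Agent.Q187.ZD.Zag
import Pool.Agent.Q187.ZD.Real

/-! The Broadhurst-Kreimer conjecture in infinitely many weights. -/

set_option autoImplicit false

namespace Pool.Agent.Q187.ZD.BK

open Module
open Pool.Agent.H447R2.MZ (val Zs Adm Zs_eq)

/-- the span of the multiple zeta values of weight `k` and depth at most `r` -/
noncomputable def Fil (r k : ℕ) : Submodule ℚ ℝ :=
  Submodule.span ℚ {x | ∃ s : List ℕ, Adm s ∧ s.sum = k ∧ s.length ≤ r ∧ x = val s}

/-- `dim V_r - dim V_(r-1)` with `V_(-1) = 0` -/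
noncomputable def jump {M : Type} [AddCommGroup M] [Module ℚ M] (V : ℕ → Submodule ℚ M) (r : ℕ) :
    ℤ := (finrank ℚ (V r) : ℤ) - (if r = 0 then 0 else (finrank ℚ (V (r - 1)) : ℤ))

/-- power series in `X` over the polynomials in `Y` -/
abbrev R : Type := PowerSeries (Polynomial ℤ)

/-- the variable `Y` -/
noncomputable def Y : R := PowerSeries.C (Polynomial.X : Polynomial ℤ)

/-- `E(X) = X^2 + X^4 + ...` -/
noncomputable def E : R := PowerSeries.mk fun k => if Even k ∧ 2 ≤ k then 1 else 0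

/-- `O(X) = X^3 + X^5 + ...` -/
noncomputable def O : R := PowerSeries.mk fun k => if Odd k ∧ 3 ≤ k then 1 else 0

/-- `B` is the series of Broadhurst and Kreimer, `s k` is the dimension of the space of cusp forms
of weight `k` -/
def IsBK (s : ℕ → ℤ) (B : R) : Prop :=
  B * (1 - O * Y + PowerSeries.mk (fun k => Polynomial.C (s k)) * Y ^ 2 -
    PowerSeries.mk (fun k => Polynomial.C (s k)) * Y ^ 4) = 1 + E * Y

/-- the coefficient of `X ^ k Y ^ r` -/
noncomputable def co (B : R) (k r : ℕ) : ℤ := (PowerSeries.coeff k B).coeff r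

/-- the conjecture of Broadhurst and Kreimer in weight `k` for filtrations `V k` -/
def Holds {M : Type} [AddCommGroup M] [Module ℚ M] (B : R) (V : ℕ → ℕ → Submodule ℚ M) (k : ℕ) :
    Prop := ∀ r, jump (fun r => V r k) r = co B k r

theorem sum_jump {M : Type} [AddCommGroup M] [Module ℚ M] (V : ℕ → Submodule ℚ M) (r : ℕ) :
    ∑ i ∈ Finset.range (r + 1), jump V i = finrank ℚ (V r) := by
  induction r with
  | zero => simp [jump]
  | succ r ih =>
    rw [Finset.sum_range_succ, ih, jump, if_neg (Nat.succ_ne_zero r), Nat.add_sub_cancel]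
    ring

/-- evaluation at `Y = 1` -/
noncomputable def ev1 : R →+* PowerSeries ℤ := PowerSeries.map (Polynomial.evalRingHom 1)

theorem ev1_Y : ev1 Y = 1 := by
  rw [ev1, Y, PowerSeries.map_C]
  simp

theorem coeff_ev1 (B : R) (k : ℕ) :
    PowerSeries.coeff k (ev1 B) = (PowerSeries.coeff k B).eval 1 := by
  rw [ev1, PowerSeries.coeff_map]
  rfl

/-- `O` and `E` at `Y = 1` -/
noncomputable def O1 : PowerSeries ℤ := PowerSeries.mk fun k => if Odd k ∧ 3 ≤ k then 1 else 0

/-- `E` at `Y = 1` -/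
noncomputable def E1 : PowerSeries ℤ := PowerSeries.mk fun k => if Even k ∧ 2 ≤ k then 1 else 0

theorem ev1_O : ev1 O = O1 := by
  ext k
  rw [coeff_ev1, O, O1, PowerSeries.coeff_mk, PowerSeries.coeff_mk]
  split_ifs <;> simp

theorem ev1_E : ev1 E = E1 := by
  ext k
  rw [coeff_ev1, E, E1, PowerSeries.coeff_mk, PowerSeries.coeff_mk]
  split_ifs <;> simp

theorem O1_eq : O1 * (1 - PowerSeries.X ^ 2) = PowerSeries.X ^ 3 := by
  ext k
  rw [mul_sub, mul_one, map_sub, PowerSeries.coeff_mul_X_pow', PowerSeries.coeff_X_pow, O1,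
    PowerSeries.coeff_mk]
  rcases Nat.lt_or_ge k 2 with h | h
  · rw [if_neg (by omega), if_neg (by omega), if_neg (by omega), sub_zero]
  · rw [if_pos h, PowerSeries.coeff_mk]
    obtain ⟨m, rfl⟩ := Nat.exists_eq_add_of_le' h
    rw [Nat.add_sub_cancel]
    have e : Odd (m + 2) ↔ Odd m := by
      rw [Nat.odd_add]
      simp
    by_cases hm : Odd m
    · rcases Nat.lt_or_ge m 3 with h3 | h3
      · obtain rfl : m = 1 := by
          rcases hm with ⟨t, ht⟩
          omega
        simp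
        decide
      · rw [if_pos ⟨e.2 hm, by omega⟩, if_pos ⟨hm, h3⟩, if_neg (by omega)]
        ring
    · rw [if_neg (fun h => hm (e.1 h.1)), if_neg (fun h => hm h.1), if_neg]
      · ring
      · rintro h
        obtain rfl : m = 1 := by omega
        exact hm odd_one

theorem one_add_E1 : 1 + E1 = PowerSeries.mk fun k => if Even k then (1 : ℤ) else 0 := by
  ext k
  rw [map_add, PowerSeries.coeff_one, E1, PowerSeries.coeff_mk, PowerSeries.coeff_mk]
  rcases Nat.eq_zero_or_pos k with rfl | h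
  · simp
  · rw [if_neg (by omega), zero_add]
    by_cases hk : Even k
    · rw [if_pos hk, if_pos ⟨hk, by
        rcases hk with ⟨t, ht⟩
        omega⟩]
    · rw [if_neg hk, if_neg fun h => hk h.1]

theorem E1_eq : (1 + E1) * (1 - PowerSeries.X ^ 2) = 1 := by
  rw [one_add_E1]
  ext k
  rw [mul_sub, mul_one, map_sub, PowerSeries.coeff_mul_X_pow', PowerSeries.coeff_one,
    PowerSeries.coeff_mk]
  rcases Nat.lt_or_ge k 2 with h | h
  · rw [if_neg (by omega : ¬ 2 ≤ k), sub_zero]
    have : k = 0 ∨ k = 1 := by omega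
    rcases this with rfl | rfl
    · simp
    · simp
  · rw [if_pos h, PowerSeries.coeff_mk]
    obtain ⟨m, rfl⟩ := Nat.exists_eq_add_of_le' h
    rw [Nat.add_sub_cancel, if_neg (by omega : ¬ (m + 2 = 0))]
    have e : Even (m + 2) ↔ Even m := by
      rw [Nat.even_add]
      simp
    by_cases hm : Even m
    · rw [if_pos (e.2 hm), if_pos hm, sub_self]
    · rw [if_neg (fun h => hm (e.1 h)), if_neg hm, sub_self]

/-- at `Y = 1` the series is `1 / (1 - X^2 - X^3)` -/
theorem ev1_BK {s : ℕ → ℤ} {B : R} (h : IsBK s B) :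
    ev1 B * (1 - PowerSeries.X ^ 2 - PowerSeries.X ^ 3) = 1 := by
  have h1 := congrArg ev1 h
  rw [map_mul, map_sub, map_add, map_sub, map_one, map_mul, map_mul, map_mul, map_pow, map_pow,
    ev1_Y, map_add, map_one, map_mul, ev1_Y, ev1_O, ev1_E] at h1
  have h2 : ev1 B * (1 - O1) = 1 + E1 := by
    rw [← mul_one E1, ← h1]
    ring
  have h3 : ev1 B * (1 - O1) * (1 - PowerSeries.X ^ 2) = 1 := by
    rw [h2, E1_eq]
  have h4 : (1 - O1) * (1 - PowerSeries.X ^ 2) = 1 - PowerSeries.X ^ 2 - PowerSeries.X ^ 3 := by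
    rw [← O1_eq]
    ring
  rw [← h4, ← mul_assoc]
  exact h3

theorem coeff_rec {F : PowerSeries ℤ} (h : F * (1 - PowerSeries.X ^ 2 - PowerSeries.X ^ 3) = 1) :
    PowerSeries.coeff 0 F = 1 ∧ PowerSeries.coeff 1 F = 0 ∧ PowerSeries.coeff 2 F = 1 ∧
      ∀ n, PowerSeries.coeff (n + 3) F = PowerSeries.coeff (n + 1) F + PowerSeries.coeff n F := by
  have key : ∀ k, PowerSeries.coeff k F -
      (if 2 ≤ k then PowerSeries.coeff (k - 2) F else 0) -
      (if 3 ≤ k then PowerSeries.coeff (k - 3) F else 0) = if k = 0 then 1 else 0 := by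
    intro k
    rw [← PowerSeries.coeff_one, ← h, mul_sub, mul_sub, mul_one, map_sub, map_sub,
      PowerSeries.coeff_mul_X_pow', PowerSeries.coeff_mul_X_pow']
  have h0 := key 0
  have h1 := key 1
  have h2 := key 2
  rw [if_neg (by omega), if_neg (by omega), if_pos rfl, sub_zero, sub_zero] at h0
  rw [if_neg (by omega), if_neg (by omega), if_neg (by omega), sub_zero, sub_zero] at h1
  rw [if_pos (by omega), if_neg (by omega), if_neg (by omega), sub_zero, Nat.sub_self] at h2
  refine ⟨h0, h1, by linarith, fun n => ?_⟩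
  have h3 := key (n + 3)
  rw [if_pos (by omega), if_pos (by omega), if_neg (by omega)] at h3
  have e1 : n + 3 - 2 = n + 1 := by omega
  have e2 : n + 3 - 3 = n := by omega
  rw [e1, e2] at h3
  linarith

/-- the sum of the coefficients in weight `k` -/
theorem sum_co {s : ℕ → ℤ} {B : R} (h : IsBK s B) {d : ℕ → ℕ} (hd : IsZagier d) (k : ℕ) :
    (PowerSeries.coeff k B).eval 1 = d k := by
  obtain ⟨a0, a1, a2, a3⟩ := coeff_rec (ev1_BK h)
  obtain ⟨h0, h1, h2, h3⟩ := hd
  have : ∀ n, PowerSeries.coeff n (ev1 B) = d n ∧ PowerSeries.coeff (n + 1) (ev1 B) = d (n + 1) ∧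
      PowerSeries.coeff (n + 2) (ev1 B) = d (n + 2) := by
    intro n
    induction n with
    | zero =>
      refine ⟨by rw [a0, h0]; rfl, by rw [a1, h1]; rfl, by rw [a2, h2]; rfl⟩
    | succ n ih =>
      obtain ⟨i0, i1, i2⟩ := ih
      refine ⟨i1, i2, ?_⟩
      have e : n + 1 + 2 = n + 3 := rfl
      rw [e, a3, i1, i0, h3]
      push_cast
      rfl
  rw [← coeff_ev1]
  exact (this k).1

/-- the conjecture in weight `k` gives the dimension in weight `k` -/
theorem dim_of_holds {s : ℕ → ℤ} {B : R} (h : IsBK s B) {d : ℕ → ℕ} (hd : IsZagier d)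
    {M : Type} [AddCommGroup M] [Module ℚ M] (V : ℕ → ℕ → Submodule ℚ M) (W : ℕ → Submodule ℚ M)
    {k : ℕ} (hV : ∀ r, k ≤ r → V r k = W k) (hh : Holds B V k) : finrank ℚ (W k) = d k := by
  let r := max k (PowerSeries.coeff k B).natDegree
  have h1 := sum_jump (fun r => V r k) r
  have h2 : ∑ i ∈ Finset.range (r + 1), jump (fun r => V r k) i =
      ∑ i ∈ Finset.range (r + 1), co B k i := Finset.sum_congr rfl fun i _ => hh i
  have h3 : ∑ i ∈ Finset.range (r + 1), co B k i = (PowerSeries.coeff k B).eval 1 := by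
    rw [Polynomial.eval_eq_sum_range' (n := r + 1)]
    · simp [co]
    · exact Nat.lt_succ_of_le (le_max_right _ _)
  rw [h2, h3, sum_co h hd, hV r (le_max_left _ _)] at h1
  exact_mod_cast h1.symm

theorem length_le_sum {s : List ℕ} (h : ∀ a ∈ s, 1 ≤ a) : s.length ≤ s.sum := by
  induction s with
  | nil => simp
  | cons a s ih =>
    have h1 := h a (by simp)
    have h2 := ih fun c hc => h c (by simp [hc])
    rw [List.length_cons, List.sum_cons]
    omega

theorem Fil_eq {r k : ℕ} (h : k ≤ r) : Fil r k = Zs k := by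
  rw [Zs_eq, Fil]
  congr 1
  ext x
  constructor
  · rintro ⟨s, h1, h2, -, h3⟩
    exact ⟨s, h1, h2, h3⟩
  · rintro ⟨s, h1, h2, h3⟩
    exact ⟨s, h1, h2, by have := length_le_sum h1.1; omega, h3⟩

section
variable {H : Type} [CommRing H] [Algebra ℚ H] {d : ℕ → ℕ} {gr : ℕ → Submodule ℚ H}
  {per : H →ₐ[ℚ] ℝ} (hm : IsMotivic d Zs gr per) {Film : ℕ → ℕ → Submodule ℚ H}
  (hf : ∀ r k, Film r k ≤ gr k) (hp : ∀ r k, (Film r k).map per.toLinearMap = Fil r k)
include hm hf hp

/-- if the dimension is right in weight `N`, the motivic and the real depth filtrations have the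
same dimensions in weight `k` -/
theorem jump_eq {k N : ℕ} (hk : k ≤ N) (hdk : 1 ≤ d (N - k)) (h : finrank ℚ (Zs N) = d N) (r : ℕ) :
    jump (fun r => Fil r k) r = jump (fun r => Film r k) r := by
  have hi : ∀ x ∈ gr k, per.toLinearMap x = 0 → x = 0 := by
    intro x hx h0
    by_contra hx0
    have := hm.domain
    have := drop_hom per hm.mul hm.finite hk hx hx0 h0
    rw [hm.period, hm.dim, hm.dim] at this
    omega
  have h1 : ∀ r, finrank ℚ (Fil r k) = finrank ℚ (Film r k) := by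
    intro r
    rw [← hp r k]
    exact finrank_map_inj _ _ fun x hx h0 => hi x (hf r k hx) h0
  rw [jump, jump, h1 r, h1 (r - 1)]

theorem holds_iff {B : R} {k N : ℕ} (hk : k ≤ N) (hdk : 1 ≤ d (N - k))
    (h : finrank ℚ (Zs N) = d N) : Holds B Fil k ↔ Holds B Film k := by
  constructor
  · intro h1 r
    rw [← jump_eq hm hf hp hk hdk h r]
    exact h1 r
  · intro h1 r
    rw [jump_eq hm hf hp hk hdk h r]
    exact h1 r

/-- the conjecture holds in all weights iff it holds in infinitely many weights and the motivic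
form holds in all weights -/
theorem main {s : ℕ → ℤ} {B : R} (h : IsBK s B) (hd : IsZagier d) :
    (∀ k, Holds B Fil k) ↔ (∀ k, Holds B Film k) ∧ {N | Holds B Fil N}.Infinite := by
  constructor
  · intro h1
    refine ⟨fun k => ?_, ?_⟩
    · have h2 := dim_of_holds h hd Fil Zs (k := k + 2) (fun r hr => Fil_eq hr) (h1 (k + 2))
      refine (holds_iff hm hf hp (by omega : k ≤ k + 2) ?_ h2).1 (h1 k)
      rw [Nat.add_sub_cancel_left]
      exact hd.2.2.1.ge
    · have : {N | Holds B Fil N} = Set.univ := Set.eq_univ_of_forall h1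
      rw [this]
      exact Set.infinite_univ
  · rintro ⟨h1, h2⟩ k
    obtain ⟨N, hN, hlt⟩ := h2.exists_gt (k + 2)
    have h3 := dim_of_holds h hd Fil Zs (k := N) (fun r hr => Fil_eq hr) hN
    exact (holds_iff hm hf hp (by omega : k ≤ N) (d_pos hd (by omega)) h3).2 (h1 k)

theorem main' {s : ℕ → ℤ} {B : R} (h : IsBK s B) (hd : IsZagier d) :
    (∀ k, Holds B Fil k) ↔ (∀ k, Holds B Film k) ∧
      ∀ ε : ℝ, 0 < ε → ∀ N₀, ∃ N ≥ N₀, (1 - ε) * d N ≤ finrank ℚ (Zs N) := by
  rw [← dims_limsup hd hm]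
  constructor
  · intro h1
    exact ⟨((main hm hf hp h hd).1 h1).1,
      fun j => dim_of_holds h hd Fil Zs (k := j) (fun r hr => Fil_eq hr) (h1 j)⟩
  · rintro ⟨h1, h2⟩ k
    exact (holds_iff hm hf hp (by omega : k ≤ k + 2)
      (by rw [Nat.add_sub_cancel_left]; exact hd.2.2.1.ge) (h2 (k + 2))).2 (h1 k)

theorem one_weight {s : ℕ → ℤ} {B : R} (h : IsBK s B) (hd : IsZagier d) {N : ℕ}
    (hN : Holds B Fil N) : finrank ℚ (Zs N) = d N ∧
      ∀ k ≤ N, N - k ≠ 1 → ∀ r, jump (fun r => Fil r k) r = jump (fun r => Film r k) r := by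
  have h1 := dim_of_holds h hd Fil Zs (k := N) (fun r hr => Fil_eq hr) hN
  refine ⟨h1, fun k hk hne r => jump_eq hm hf hp hk ?_ h1 r⟩
  rcases Nat.eq_zero_or_pos (N - k) with h0 | h0
  · rw [h0, hd.1]
  · exact d_pos hd (by omega)

end

end Pool.Agent.Q187.ZD.BK
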