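import Mathlib

/-! Zero-one laws for the kernel of a map on a graded domain. -/

set_option autoImplicit false

namespace Pool.Agent.Q187.ZD

open Module

/-- `gr 0 + ... + gr N` -/
def tot {F M : Type*} [Semiring F] [AddCommMonoid M] [Module F M] (gr : ℕ → Submodule F M)
    (N : ℕ) : Submodule F M := (Finset.range (N + 1)).sup gr

section
variable {F M : Type*} [Field F] [AddCommGroup M] [Module F M] (gr : ℕ → Submodule F M)

theorem tot_zero : tot gr 0 = gr 0 := by simp [tot]

theorem tot_succ (N : ℕ) : tot gr (N + 1) = tot gr N ⊔ gr (N + 1) := by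
  rw [tot, tot, Finset.range_add_one (n := N + 1), Finset.sup_insert, sup_comm]

theorem le_tot {j N : ℕ} (h : j ≤ N) : gr j ≤ tot gr N :=
  Finset.le_sup (f := gr) (Finset.mem_range.2 (by omega))

theorem tot_mono {N N' : ℕ} (h : N ≤ N') : tot gr N ≤ tot gr N' :=
  Finset.sup_mono (Finset.range_mono (by omega))

theorem map_tot {M' : Type*} [AddCommGroup M'] [Module F M'] (f : M →ₗ[F] M') (N : ℕ) :
    (tot gr N).map f = tot (fun j => (gr j).map f) N := by
  induction N with
  | zero => rw [tot_zero, tot_zero]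
  | succ N ih => rw [tot_succ, tot_succ, Submodule.map_sup, ih]

theorem finite_tot (h : ∀ j, FiniteDimensional F (gr j)) (N : ℕ) :
    FiniteDimensional F (tot gr N) := by
  induction N with
  | zero => rw [tot_zero]; exact h 0
  | succ N ih =>
    rw [tot_succ]
    have := h (N + 1)
    exact Submodule.finite_sup _ _

theorem finrank_tot_le (h : ∀ j, FiniteDimensional F (gr j)) (N : ℕ) :
    finrank F (tot gr N) ≤ ∑ j ∈ Finset.range (N + 1), finrank F (gr j) := by
  induction N with
  | zero => rw [tot_zero]; simp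
  | succ N ih =>
    rw [tot_succ, Finset.sum_range_succ]
    have := h (N + 1)
    have := finite_tot gr h N
    exact (Submodule.finrank_add_le_finrank_add_finrank _ _).trans (by omega)

theorem disjoint_tot (hi : iSupIndep gr) (N : ℕ) : Disjoint (tot gr N) (gr (N + 1)) := by
  have := iSupIndep.disjoint_biSup hi (x := N + 1) (y := {j | j ≤ N}) (by simp)
  refine (this.mono_right ?_).symm
  rw [tot, Finset.sup_eq_iSup]
  refine iSup₂_mono' fun j hj => ⟨j, ?_, le_rfl⟩
  simp at hj ⊢
  omega

theorem finrank_tot (hi : iSupIndep gr) (h : ∀ j, FiniteDimensional F (gr j)) (N : ℕ) :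
    finrank F (tot gr N) = ∑ j ∈ Finset.range (N + 1), finrank F (gr j) := by
  induction N with
  | zero => rw [tot_zero]; simp
  | succ N ih =>
    rw [tot_succ, Finset.sum_range_succ, ← ih]
    have := h (N + 1)
    have := finite_tot gr h N
    have h1 := Submodule.finrank_sup_add_finrank_inf_eq (tot gr N) (gr (N + 1))
    rw [(disjoint_tot gr hi N).eq_bot, finrank_bot, add_zero] at h1
    exact h1

theorem exists_sum {N : ℕ} {x : M} (hx : x ∈ tot gr N) :
    ∃ z : ℕ → M, (∀ j, z j ∈ gr j) ∧ x = ∑ j ∈ Finset.range (N + 1), z j := by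
  induction N generalizing x with
  | zero =>
    rw [tot_zero] at hx
    classical
    refine ⟨fun j => if j = 0 then x else 0, fun j => ?_, by simp⟩
    by_cases h : j = 0
    · subst h
      simpa using hx
    · simp [h]
  | succ N ih =>
    rw [tot_succ] at hx
    obtain ⟨y, hy, w, hw, rfl⟩ := Submodule.mem_sup.1 hx
    obtain ⟨z, hz, rfl⟩ := ih hy
    classical
    refine ⟨fun j => if j = N + 1 then w else z j, fun j => ?_, ?_⟩
    · by_cases h : j = N + 1
      · subst h
        simpa using hw
      · simpa [h] using hz j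
    · rw [Finset.sum_range_succ _ (N + 1)]
      simp only [if_true]
      congr 1
      refine Finset.sum_congr rfl fun j hj => ?_
      rw [Finset.mem_range] at hj
      rw [if_neg (by omega)]

theorem sum_mem_tot {N : ℕ} {z : ℕ → M} (hz : ∀ j ≤ N, z j ∈ gr j) :
    ∑ j ∈ Finset.range (N + 1), z j ∈ tot gr N := by
  refine Submodule.sum_mem _ fun j hj => ?_
  rw [Finset.mem_range] at hj
  exact le_tot gr (by omega : j ≤ N) (hz j (by omega))

end

section
variable {F H : Type*} [Field F] [CommRing H] [Algebra F H] (gr : ℕ → Submodule F H)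

theorem mul_tot (hm : ∀ i j, ∀ x ∈ gr i, ∀ y ∈ gr j, x * y ∈ gr (i + j)) {p q : ℕ} {x y : H}
    (hx : x ∈ tot gr p) (hy : y ∈ tot gr q) : x * y ∈ tot gr (p + q) := by
  obtain ⟨u, hu, rfl⟩ := exists_sum gr hx
  obtain ⟨v, hv, rfl⟩ := exists_sum gr hy
  rw [Finset.sum_mul_sum]
  refine Submodule.sum_mem _ fun i hi => Submodule.sum_mem _ fun j hj => ?_
  rw [Finset.mem_range] at hi hj
  exact le_tot gr (by omega : i + j ≤ p + q) (hm i j _ (hu i) _ (hv j))

end

/-- the image of `V` drops at least by the dimension of `U` if `x U ⊆ V` for an element `x ≠ 0`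
of the kernel -/
theorem rank_drop {F H E : Type*} [Field F] [CommRing H] [IsDomain H] [Algebra F H]
    [AddCommGroup E] [Module F E] (φ : H →ₗ[F] E) {x : H} (hx : x ≠ 0) (V U : Submodule F H)
    [FiniteDimensional F V] (hU : ∀ u ∈ U, x * u ∈ V) (h0 : ∀ u ∈ U, φ (x * u) = 0) :
    finrank F (V.map φ) + finrank F U ≤ finrank F V := by
  have h1 := LinearMap.finrank_range_add_finrank_ker (φ.domRestrict V)
  have h2 : LinearMap.range (φ.domRestrict V) = V.map φ := by
    ext y
    simp only [LinearMap.mem_range, LinearMap.domRestrict_apply, Subtype.exists, exists_prop,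
      Submodule.mem_map]
  rw [h2] at h1
  let g : U →ₗ[F] LinearMap.ker (φ.domRestrict V) :=
    { toFun := fun u => ⟨⟨x * u.1, hU _ u.2⟩, by
        rw [LinearMap.mem_ker, LinearMap.domRestrict_apply]
        exact h0 _ u.2⟩
      map_add' := fun u v => by
        ext
        simp [mul_add]
      map_smul' := fun t u => by
        ext
        simp }
  have hg : Function.Injective g := by
    intro u v huv
    have h3 : x * (u : H) = x * (v : H) := by
      have := congrArg (fun w : LinearMap.ker (φ.domRestrict V) => ((w : V) : H)) huv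
      exact this
    exact Subtype.ext (mul_left_cancel₀ hx h3)
  have h4 := LinearMap.finrank_le_finrank_of_injective hg
  omega

/-- exponential growth: for sequences with `D N ≤ 2 ^ (N + 1)` the quotients `D (N + p) / D N`
are often bounded -/
theorem growth (D : ℕ → ℕ) (h0 : ∀ N, 1 ≤ D N) (hD : ∀ N, D N ≤ 2 ^ (N + 1)) (p N₀ : ℕ) :
    ∃ N ≥ N₀, D (N + p) < 2 ^ (p + 1) * D N := by
  by_contra hcon
  push Not at hcon
  have key : ∀ i, (2 ^ (p + 1)) ^ i ≤ D (N₀ + i * p) := by
    intro i
    induction i with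
    | zero => simpa using h0 N₀
    | succ i ih =>
      have := hcon (N₀ + i * p) (by omega)
      calc (2 ^ (p + 1)) ^ (i + 1) = 2 ^ (p + 1) * (2 ^ (p + 1)) ^ i := by ring
        _ ≤ 2 ^ (p + 1) * D (N₀ + i * p) := Nat.mul_le_mul_left _ ih
        _ ≤ D (N₀ + i * p + p) := this
        _ = D (N₀ + (i + 1) * p) := by congr 1; ring
  have h1 := (key (N₀ + 2)).trans (hD _)
  rw [← pow_mul] at h1
  have h2 := (Nat.pow_le_pow_iff_right (by norm_num : 1 < 2)).1 h1
  nlinarith

end Pool.Agent.Q187.ZD
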