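import Pool.Agent.Q187.ZD.Quot

/-! Regularized double shuffle relations: definitions, and the zero-one law. -/

set_option autoImplicit false

namespace Pool.Agent.Q187.ZD.DS

open Module

/-- `trunc [s_1, ..., s_r] m` is the sum of `∏ k_i ^ (-s_i)` over `m > k_1 > ... > k_r ≥ 1` -/
noncomputable def trunc : List ℕ → ℕ → ℝ
  | [], _ => 1
  | s :: l, m => ∑ j ∈ Finset.Ico 1 m, trunc l j / (j : ℝ) ^ s

/-- the multiple zeta value `ζ(s_1, ..., s_r)`, `s_1` belongs to the largest variable -/
noncomputable def mzv : List ℕ → ℝ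
  | [] => 1
  | s :: l => ∑' k : ℕ, trunc l (k + 1) / ((k + 1 : ℕ) : ℝ) ^ s

/-- the word `y_{k_1} ... y_{k_t}`, where `y_k = x ^ (k - 1) y`, `x = false`, `y = true` -/
def word : List ℕ → List Bool
  | [] => []
  | k :: l => List.replicate (k - 1) false ++ true :: word l

/-- `index 0 w` is the list of the `k_i` for the word `w = y_{k_1} ... y_{k_t}` -/
def index : ℕ → List Bool → List ℕ
  | _, [] => []
  | c, true :: u => (c + 1) :: index 0 u
  | c, false :: u => index (c + 1) u

/-- the list of the shuffles of two words -/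
def shuffles : List Bool → List Bool → List (List Bool)
  | [], v => [v]
  | a :: u, [] => [a :: u]
  | a :: u, b :: v => (shuffles u (b :: v)).map (a :: ·) ++ (shuffles (a :: u) v).map (b :: ·)
termination_by u v => u.length + v.length

/-- the list of the indices in the stuffle product of two indices -/
def stuffles : List ℕ → List ℕ → List (List ℕ)
  | [], l => [l]
  | i :: k, [] => [i :: k]
  | i :: k, j :: l => (stuffles k (j :: l)).map (i :: ·) ++ (stuffles (i :: k) l).map (j :: ·) ++
      (stuffles k l).map ((i + j) :: ·)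
termination_by k l => k.length + l.length

/-- rational combinations of words -/
abbrev W : Type := List Bool →₀ ℚ

/-- the sum of a list of words -/
noncomputable def total (L : List (List Bool)) : W := (L.map fun w => Finsupp.single w 1).sum

/-- the `ℚ`-linear map `Z` with `Z (y_{k_1} ... y_{k_t}) = ζ(k_1, ..., k_t)` -/
noncomputable def Z : W →ₗ[ℚ] ℝ := Finsupp.linearCombination ℚ fun w => mzv (index 0 w)

/-- words which are empty or end in `y` -/
def InH1 (w : List Bool) : Prop := w = [] ∨ w.getLast? = some true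

/-- words which are empty or start with `x` and end in `y` -/
def InH0 (w : List Bool) : Prop := w = [] ∨ (w.head? = some false ∧ w.getLast? = some true)

/-- the part of weight `p` of `ℚ + x ℚ⟨x, y⟩ y` -/
noncomputable def H0 (p : ℕ) : Submodule ℚ W :=
  Submodule.span ℚ {f | ∃ w, InH0 w ∧ w.length = p ∧ f = Finsupp.single w 1}

/-- the regularization of a word: `reg (y ^ n x u) = (-1) ^ n x (y ^ n ш u)`, `reg 1 = 1`,
`reg (y ^ n) = 0` for `n ≥ 1` -/
noncomputable def regWord (w : List Bool) : W :=
  match w.dropWhile id with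
  | [] => if w = [] then Finsupp.single [] 1 else 0
  | _ :: u => ((-1 : ℚ) ^ (w.takeWhile id).length) •
      total ((shuffles (w.takeWhile id) u).map (false :: ·))

/-- the regularization -/
noncomputable def reg : W →ₗ[ℚ] W := Finsupp.linearCombination ℚ regWord

/-- the regularized double shuffle element of two words -/
noncomputable def element (u v : List Bool) : W :=
  reg (total (shuffles u v) - total ((stuffles (index 0 u) (index 0 v)).map word))

/-- the span of the regularized double shuffle elements of weight `p` -/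
noncomputable def RDS (p : ℕ) : Submodule ℚ W :=
  Submodule.span ℚ {f | ∃ u v, InH1 u ∧ InH0 v ∧ u.length + v.length = p ∧ f = element u v}

/-- the shuffle product with a word -/
noncomputable def mulWord (t : List Bool) : W →ₗ[ℚ] W :=
  Finsupp.linearCombination ℚ fun w => total (shuffles t w)

/-- the weight `p` part of the ideal generated by the regularized double shuffle elements, for the
shuffle product -/
noncomputable def Ideal (p : ℕ) : Submodule ℚ W :=
  Submodule.span ℚ {f | ∃ t u v, InH0 t ∧ InH1 u ∧ InH0 v ∧ t.length + (u.length + v.length) = p ∧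
    f = mulWord t (element u v)}

/-- the problem in weight `p`: all relations are combinations of double shuffle elements -/
def Linear (p : ℕ) : Prop := ∀ f ∈ H0 p, Z f = 0 → f ∈ RDS p

/-- all relations of weight `p` follow from the double shuffle relations (products of relations
with multiple zeta values are allowed) -/
def Conjecture (p : ℕ) : Prop := ∀ f ∈ H0 p, Z f = 0 → f ∈ Ideal p

/-- The known structure of the algebra `E` of formal multiple zeta values (Ihara, Kaneko, Zagier;
Racinet): the quotient of the words by the ideal of the double shuffle elements is a graded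
domain. -/
structure IsFormalAlgebra {E : Type} [CommRing E] [Algebra ℚ E] (gr : ℕ → Submodule ℚ E)
    (q : W →ₗ[ℚ] E) (per : E →ₐ[ℚ] ℝ) : Prop where
  domain : IsDomain E
  mul : ∀ i j, ∀ x ∈ gr i, ∀ y ∈ gr j, x * y ∈ gr (i + j)
  onto : ∀ p, (H0 p).map q = gr p
  kernel : ∀ p, ∀ f ∈ H0 p, q f = 0 ↔ f ∈ Ideal p
  period : ∀ p, ∀ f ∈ H0 p, per (q f) = Z f

/-- the bounds `dim Z_p ≤ d_p ≤ dim E_p` (Terasoma; Goncharov, Deligne) -/
def Bounds {E : Type} [CommRing E] [Algebra ℚ E] (d : ℕ → ℕ) (gr : ℕ → Submodule ℚ E) : Prop :=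
  ∀ p, finrank ℚ ((H0 p).map Z) ≤ d p ∧ d p ≤ finrank ℚ (gr p)

theorem shuffles_nil (w : List Bool) : shuffles [] w = [w] := by
  rw [shuffles]

theorem mulWord_nil (f : W) : mulWord [] f = f := by
  induction f using Finsupp.induction_linear with
  | zero => simp
  | add f g hf hg => rw [map_add, hf, hg]
  | single w t =>
    rw [mulWord, Finsupp.linearCombination_single, shuffles_nil, total]
    simp

theorem RDS_le (p : ℕ) : RDS p ≤ Ideal p := by
  refine Submodule.span_mono ?_
  rintro f ⟨u, v, hu, hv, hp, rfl⟩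
  exact ⟨[], u, v, Or.inl rfl, hu, hv, by simpa using hp, (mulWord_nil _).symm⟩

theorem conj_of_linear {p : ℕ} (h : Linear p) : Conjecture p :=
  fun f hf hZ => RDS_le p (h f hf hZ)

theorem finite_H0 (p : ℕ) : FiniteDimensional ℚ (H0 p) := by
  have h : H0 p ≤ Submodule.span ℚ
      (Set.range fun v : List.Vector Bool p => (Finsupp.single v.1 1 : W)) := by
    refine Submodule.span_mono ?_
    rintro f ⟨w, -, hw, rfl⟩
    exact ⟨⟨w, hw⟩, rfl⟩
  have : FiniteDimensional ℚ (Submodule.span ℚ
      (Set.range fun v : List.Vector Bool p => (Finsupp.single v.1 1 : W))) :=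
    FiniteDimensional.span_of_finite ℚ (Set.finite_range _)
  exact Submodule.finiteDimensional_of_le h

section
variable {E : Type} [CommRing E] [Algebra ℚ E] {gr : ℕ → Submodule ℚ E} {q : W →ₗ[ℚ] E}
  {per : E →ₐ[ℚ] ℝ} (h : IsFormalAlgebra gr q per)
include h

theorem finite_gr (p : ℕ) : FiniteDimensional ℚ (gr p) := by
  have := finite_H0 p
  rw [← h.onto p]
  infer_instance

theorem map_per (p : ℕ) : (gr p).map per.toLinearMap = (H0 p).map Z := by
  rw [← h.onto p]
  ext y
  constructor
  · rintro ⟨_, ⟨f, hf, rfl⟩, rfl⟩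
    exact ⟨f, hf, (h.period p f hf).symm⟩
  · rintro ⟨f, hf, rfl⟩
    exact ⟨q f, ⟨f, hf, rfl⟩, h.period p f hf⟩

theorem isFormal : IsFormal (fun p => finrank ℚ ((H0 p).map Z)) gr per where
  domain := h.domain
  mul := h.mul
  finite := finite_gr h
  dim p := by rw [map_per h p]

theorem complete_conj (p : ℕ) : Complete gr per p ↔ Conjecture p := by
  constructor
  · intro hc f hf hZ
    rw [← h.kernel p f hf]
    apply hc
    · rw [← h.onto p]
      exact ⟨f, hf, rfl⟩
    · rw [h.period p f hf, hZ]
  · intro hc x hx h0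
    rw [← h.onto p] at hx
    obtain ⟨f, hf, rfl⟩ := hx
    rw [h.period p f hf] at h0
    exact (h.kernel p f hf).2 (hc f hf h0)

theorem missing {k : ℕ} (hk : ¬ Conjecture k) {N : ℕ} (hN : k ≤ N) :
    finrank ℚ ((H0 N).map Z) + finrank ℚ (gr (N - k)) ≤ finrank ℚ (gr N) :=
  extra (isFormal h) (fun hc => hk ((complete_conj h k).1 hc)) hN

theorem conj_infinite {d : ℕ → ℕ} (hd : IsZagier d) (hb : Bounds d gr) :
    (∀ p, Conjecture p) ↔ {N | Conjecture N}.Infinite := by
  constructor
  · intro h
    have : {N | Conjecture N} = Set.univ := Set.eq_univ_of_forall h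
    rw [this]
    exact Set.infinite_univ
  · intro hi k
    by_contra hk
    obtain ⟨N, hN, hlt⟩ := hi.exists_gt (k + 2)
    have h1 := missing h hk (by omega : k ≤ N)
    have h2 := d_pos hd (by omega : 2 ≤ N - k)
    have h3 := (hb (N - k)).2
    have h4 := (complete_iff (isFormal h) N).1 ((complete_conj h N).2 hN)
    omega

theorem conj_liminf {d : ℕ → ℕ} (hd : IsZagier d) (hb : Bounds d gr) :
    (∀ p, Conjecture p) ↔ ∀ ε : ℝ, 0 < ε → ∀ N₀, ∃ N ≥ N₀,
      (finrank ℚ (gr N) : ℝ) ≤ finrank ℚ ((H0 N).map Z) + ε * d N := by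
  constructor
  · intro hc ε hε N₀
    refine ⟨N₀, le_rfl, ?_⟩
    rw [(complete_iff (isFormal h) N₀).1 ((complete_conj h N₀).2 (hc N₀))]
    have : (0 : ℝ) ≤ d N₀ := by positivity
    nlinarith
  · intro hc k
    by_contra hk
    have hpos : (0 : ℝ) < (2 ^ k : ℝ)⁻¹ := by positivity
    obtain ⟨N, hN, h1⟩ := hc ((2 ^ k : ℝ)⁻¹ / 2) (by positivity) (k + 2)
    have h2 := missing h hk (by omega : k ≤ N)
    have h3 := (hb (N - k)).2
    have h4 := d_pow hd (by omega : 2 ≤ N - k) k
    rw [Nat.sub_add_cancel (by omega)] at h4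
    have h5 : (finrank ℚ ((H0 N).map Z) : ℝ) + d (N - k) ≤ finrank ℚ (gr N) := by
      exact_mod_cast (by omega)
    have h6 : (d N : ℝ) ≤ 2 ^ k * d (N - k) := by exact_mod_cast h4
    have h7 : (2 ^ k : ℝ)⁻¹ * d N ≤ d (N - k) := by
      rw [inv_mul_le_iff₀ (by positivity)]
      exact h6
    have h8 : (1 : ℝ) ≤ d N := by exact_mod_cast d_pos hd (by omega : 2 ≤ N)
    nlinarith

end

end Pool.Agent.Q187.ZD.DS
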