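import Pool.Agent.Q187.ZD.GT

/-! Dimensions of graded Lie algebras and of their enveloping algebras. -/

set_option autoImplicit false

namespace Pool.Agent.Q187.ZD.Eul

open Pool.Agent.Q187.ZD.GT

/-- `1 + X^w + X^(2 w) + ...` -/
noncomputable def G (w : ℕ) : PowerSeries ℕ := PowerSeries.mk fun k => if w ∣ k then 1 else 0

/-- the product of the `(1 - X^w)^(-m w)` over `1 ≤ w ≤ N` -/
noncomputable def PB (m : ℕ → ℕ) (N : ℕ) : PowerSeries ℕ := ∏ w ∈ Finset.Icc 1 N, (G w) ^ (m w)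

/-- the dimension of the part of weight `N` of the enveloping algebra of a graded Lie algebra with
parts of dimension `m w`, `w ≥ 1` -/
noncomputable def envelope (m : ℕ → ℕ) (N : ℕ) : ℕ := PowerSeries.coeff N (PB m N)

/-- the enveloping algebra of a graded Lie algebra with parts of dimension `l w` has parts of
dimension `u N` -/
def HasEnvelope (l u : ℕ → ℕ) : Prop := ∀ N, ∀ j ≤ N, PowerSeries.coeff j (PB l N) = u j

theorem G_zero (w : ℕ) : PowerSeries.coeff 0 (G w) = 1 := by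
  rw [G, PowerSeries.coeff_mk, if_pos (dvd_zero w)]

theorem G_self (w : ℕ) : PowerSeries.coeff w (G w) = 1 := by
  rw [G, PowerSeries.coeff_mk, if_pos (dvd_refl w)]

theorem coeff_zero_mul (A B : PowerSeries ℕ) :
    PowerSeries.coeff 0 (A * B) = PowerSeries.coeff 0 A * PowerSeries.coeff 0 B := by
  rw [PowerSeries.coeff_mul]
  simp

theorem coeff_mul_ge {A B : PowerSeries ℕ} {N w : ℕ} (hw : 1 ≤ w) (hN : w ≤ N) :
    PowerSeries.coeff N A * PowerSeries.coeff 0 B +
      PowerSeries.coeff (N - w) A * PowerSeries.coeff w B ≤ PowerSeries.coeff N (A * B) := by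
  rw [PowerSeries.coeff_mul]
  have h : ({(N, 0), (N - w, w)} : Finset (ℕ × ℕ)) ⊆ Finset.HasAntidiagonal.antidiagonal N := by
    intro x hx
    simp only [Finset.mem_insert, Finset.mem_singleton] at hx
    rw [Finset.HasAntidiagonal.mem_antidiagonal]
    rcases hx with rfl | rfl
    · rfl
    · exact Nat.sub_add_cancel hN
  refine le_trans (le_of_eq ?_) (Finset.sum_le_sum_of_subset h)
  rw [Finset.sum_pair]
  intro h
  have := congrArg Prod.snd h
  simp at this
  omega

theorem coeff_mul_ge' {A B : PowerSeries ℕ} {N : ℕ} :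
    PowerSeries.coeff N A * PowerSeries.coeff 0 B ≤ PowerSeries.coeff N (A * B) := by
  rw [PowerSeries.coeff_mul]
  have h : (N, 0) ∈ Finset.HasAntidiagonal.antidiagonal N := by
    rw [Finset.HasAntidiagonal.mem_antidiagonal]
    rfl
  exact Finset.single_le_sum
    (f := fun x : ℕ × ℕ => PowerSeries.coeff x.1 A * PowerSeries.coeff x.2 B)
    (fun _ _ => Nat.zero_le _) h

theorem pow_zero' (w n : ℕ) : PowerSeries.coeff 0 ((G w) ^ n) = 1 := by
  induction n with
  | zero => simp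
  | succ n ih => rw [pow_succ, coeff_zero_mul, ih, G_zero]

theorem pow_self {w : ℕ} (hw : 1 ≤ w) (n : ℕ) : n ≤ PowerSeries.coeff w ((G w) ^ n) := by
  induction n with
  | zero => exact Nat.zero_le _
  | succ n ih =>
    have h := coeff_mul_ge (A := (G w) ^ n) (B := G w) hw (le_refl w)
    rw [G_zero, G_self, Nat.sub_self, pow_zero', mul_one, mul_one] at h
    rw [pow_succ]
    omega

theorem prod_zero (m : ℕ → ℕ) (s : Finset ℕ) :
    PowerSeries.coeff 0 (∏ w ∈ s, (G w) ^ (m w)) = 1 := by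
  classical
  induction s using Finset.induction_on with
  | empty => simp
  | insert a s ha ih => rw [Finset.prod_insert ha, coeff_zero_mul, ih, pow_zero']

theorem PB_self {δ : ℕ → ℕ} {w N : ℕ} (hw : 1 ≤ w) (hN : w ≤ N) :
    δ w ≤ PowerSeries.coeff w (PB δ N) := by
  have h : w ∈ Finset.Icc 1 N := Finset.mem_Icc.2 ⟨hw, hN⟩
  rw [PB, ← Finset.mul_prod_erase _ _ h]
  refine le_trans ?_ coeff_mul_ge'
  rw [prod_zero, mul_one]
  exact pow_self hw _

theorem PB_mul {l m : ℕ → ℕ} (h : ∀ w, 1 ≤ w → l w ≤ m w) (N : ℕ) :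
    PB m N = PB l N * PB (fun w => m w - l w) N := by
  rw [PB, PB, PB, ← Finset.prod_mul_distrib]
  refine Finset.prod_congr rfl fun w hw => ?_
  rw [← pow_add, Nat.add_sub_cancel' (h w (Finset.mem_Icc.1 hw).1)]

section
variable {l m u : ℕ → ℕ} (hl : HasEnvelope l u) (h : ∀ w, 1 ≤ w → l w ≤ m w)
include hl h

theorem envelope_ge {w N : ℕ} (hw : 1 ≤ w) (hN : w ≤ N) :
    u N + u (N - w) * (m w - l w) ≤ envelope m N := by
  have h1 := coeff_mul_ge (A := PB l N) (B := PB (fun w => m w - l w) N) hw hN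
  rw [← PB_mul h N, hl N N le_rfl, hl N (N - w) (Nat.sub_le _ _)] at h1
  have h2 : PowerSeries.coeff 0 (PB (fun w => m w - l w) N) = 1 := prod_zero _ _
  have h3 := PB_self (δ := fun w => m w - l w) hw hN
  rw [h2, mul_one] at h1
  rw [envelope]
  exact le_trans (Nat.add_le_add_left (Nat.mul_le_mul_left _ h3) _) h1

omit h in
theorem envelope_eq (he : ∀ w, 1 ≤ w → m w = l w) (N : ℕ) : envelope m N = u N := by
  rw [envelope, ← hl N N le_rfl, PB, PB]
  congr 1
  exact Finset.prod_congr rfl fun w hw => by rw [he w (Finset.mem_Icc.1 hw).1]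

theorem one_weight (hu : IsOdd3 u) {N : ℕ} (hN : envelope m N = u N) {w : ℕ} (hw : 1 ≤ w)
    (hwN : w ≤ N) (h1 : N - w ≠ 1) (h2 : N - w ≠ 2) (h4 : N - w ≠ 4) : m w = l w := by
  have h5 := envelope_ge hl h hw hwN
  have h6 := u_pos' hu h1 h2 h4
  have h7 := h w hw
  have h8 : u (N - w) * (m w - l w) = 0 := by omega
  rcases Nat.mul_eq_zero.1 h8 with h9 | h9
  · omega
  · omega

theorem infinite_iff (hu : IsOdd3 u) :
    (∀ w, 1 ≤ w → m w = l w) ↔ {N | envelope m N = u N}.Infinite := by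
  constructor
  · intro he
    have : {N | envelope m N = u N} = Set.univ := Set.eq_univ_of_forall (envelope_eq hl he)
    rw [this]
    exact Set.infinite_univ
  · intro hi w hw
    obtain ⟨N, hN, hlt⟩ := hi.exists_gt (w + 5)
    exact one_weight hl h hu hN hw (by omega) (by omega) (by omega) (by omega)

theorem share (hu : IsOdd3 u) {w N : ℕ} (hw : 1 ≤ w) (hN : w + 5 ≤ N) :
    (1 + (2 ^ w : ℝ)⁻¹ * (m w - l w : ℕ)) * u N ≤ envelope m N := by
  have h1 := envelope_ge hl h hw (by omega : w ≤ N)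
  have h2 := u_pow hu (by omega : 5 ≤ N - w) w
  rw [Nat.sub_add_cancel (by omega)] at h2
  have h3 : (u N : ℝ) + u (N - w) * (m w - l w : ℕ) ≤ envelope m N := by exact_mod_cast h1
  have h4 : (u N : ℝ) ≤ 2 ^ w * u (N - w) := by exact_mod_cast h2
  have h5 : (2 ^ w : ℝ)⁻¹ * u N ≤ u (N - w) := by
    rw [inv_mul_le_iff₀ (by positivity)]
    exact h4
  have h6 : (0 : ℝ) ≤ (m w - l w : ℕ) := by positivity
  nlinarith

theorem liminf_iff (hu : IsOdd3 u) : (∀ w, 1 ≤ w → m w = l w) ↔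
    ∀ ε : ℝ, 0 < ε → ∀ N₀, ∃ N ≥ N₀, (envelope m N : ℝ) ≤ (1 + ε) * u N := by
  constructor
  · intro he ε hε N₀
    refine ⟨N₀, le_rfl, ?_⟩
    rw [envelope_eq hl he]
    have : (0 : ℝ) ≤ u N₀ := by positivity
    nlinarith
  · intro hc w hw
    by_contra hne
    have h7 := h w hw
    have hpos : (0 : ℝ) < (2 ^ w : ℝ)⁻¹ := by positivity
    obtain ⟨N, hN, h1⟩ := hc ((2 ^ w : ℝ)⁻¹ / 2) (by positivity) (w + 5)
    have h2 := share hl h hu hw hN
    have h3 : (1 : ℝ) ≤ u N := by exact_mod_cast u_pos hu (by omega : 5 ≤ N)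
    have h4 : (1 : ℝ) ≤ (m w - l w : ℕ) := by exact_mod_cast (by omega : 1 ≤ m w - l w)
    have h5 : (0 : ℝ) < (2 ^ w : ℝ)⁻¹ * u N := by positivity
    have h6 : (2 ^ w : ℝ)⁻¹ * u N * 1 ≤ (2 ^ w : ℝ)⁻¹ * u N * (m w - l w : ℕ) :=
      mul_le_mul_of_nonneg_left h4 h5.le
    nlinarith

end

end Pool.Agent.Q187.ZD.Eul
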