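import Pool.Agent.Q187.ZD.Main

/-! Multiple Clausen values and alternating multiple zeta values: zero-one laws. -/

set_option autoImplicit false

open Module Filter Topology

namespace Pool.Agent.Q187.ZD.Fib

/-- `part [(a_1, z_1), ..., (a_n, z_n)] m` is the sum of `∏ z_j ^ l_j / l_j ^ a_j` over
`m > l_1 > ... > l_n ≥ 1`. -/
noncomputable def part : List (ℕ × ℂ) → ℕ → ℂ
  | [], _ => 1
  | x :: l, m => ∑ j ∈ Finset.Ico 1 m, x.2 ^ j / (j : ℂ) ^ x.1 * part l j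

/-- The multiple polylogarithm of the arguments `l` converges, with value `x`. -/
def IsLi (l : List (ℕ × ℂ)) (x : ℂ) : Prop := Tendsto (part l) atTop (𝓝 x)

/-- `e^(πi/3)` -/
noncomputable def omega : ℂ := Complex.exp (Real.pi * Complex.I / 3)

/-- The span of the multiple Clausen values of weight `w`. -/
noncomputable def clausen (w : ℕ) : Submodule ℚ ℂ :=
  Submodule.span ℚ {x | ∃ (a : ℕ) (l : List ℕ), 1 ≤ a ∧ (∀ b ∈ l, 1 ≤ b) ∧ a + l.sum = w ∧
    IsLi ((a, omega) :: l.map fun b => (b, 1)) x}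

/-- The span of the alternating multiple zeta values of weight `w`. -/
noncomputable def alternating (w : ℕ) : Submodule ℚ ℂ :=
  Submodule.span ℚ {x | ∃ (y : ℕ × ℂ) (l : List (ℕ × ℂ)), (∀ b ∈ y :: l, 1 ≤ b.1 ∧ b.2 ^ 2 = 1) ∧
    y ≠ (1, 1) ∧ ((y :: l).map Prod.fst).sum = w ∧ IsLi (y :: l) x}

/-- Known (Deligne, Goncharov): the motivic versions form a graded domain whose part of positive
weight `w` has dimension `F_(w+1)` and is mapped onto `Z w` by the period map. -/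
structure IsMotivic {H : Type} [CommRing H] [Algebra ℚ H] (Z : ℕ → Submodule ℚ ℂ)
    (gr : ℕ → Submodule ℚ H) (per : H →ₐ[ℚ] ℂ) : Prop where
  domain : IsDomain H
  mul : ∀ i j, ∀ x ∈ gr i, ∀ y ∈ gr j, x * y ∈ gr (i + j)
  finite : ∀ j, FiniteDimensional ℚ (gr j)
  dim : ∀ j, finrank ℚ (gr j) = Nat.fib (j + 1)
  period : ∀ j, 1 ≤ j → (gr j).map per.toLinearMap = Z j

section
variable {H : Type} [CommRing H] [Algebra ℚ H] {Z : ℕ → Submodule ℚ ℂ}
  {gr : ℕ → Submodule ℚ H} {per : H →ₐ[ℚ] ℂ} (h : IsMotivic Z gr per)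
include h

theorem drop {k N : ℕ} (hk1 : 1 ≤ k) (hk : k ≤ N) (hne : finrank ℚ (Z k) ≠ Nat.fib (k + 1)) :
    finrank ℚ (Z N) + Nat.fib (N - k + 1) ≤ Nat.fib (N + 1) := by
  have := h.domain
  have h1 : ∃ x ∈ gr k, x ≠ 0 ∧ per x = 0 := by
    by_contra hc
    push Not at hc
    apply hne
    rw [← h.period k hk1, ← h.dim k]
    exact finrank_map_inj per.toLinearMap (gr k) fun x hx h0 => by
      by_contra h2
      exact hc x hx h2 h0
  obtain ⟨x, hx, hx0, h0⟩ := h1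
  have h2 := drop_hom per h.mul h.finite hk hx hx0 h0
  rw [h.period N (by omega), h.dim, h.dim] at h2
  exact h2

theorem le_fib {N : ℕ} (hN : 1 ≤ N) : finrank ℚ (Z N) ≤ Nat.fib (N + 1) := by
  rw [← h.period N hN, ← h.dim N]
  have := h.finite N
  exact Submodule.finrank_map_le _ _

theorem eq_of_lt {k N : ℕ} (hk1 : 1 ≤ k) (hk : k ≤ N)
    (hlt : Nat.fib (N + 1) < finrank ℚ (Z N) + Nat.fib (N - k + 1)) :
    finrank ℚ (Z k) = Nat.fib (k + 1) := by
  by_contra hc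
  exact absurd (drop h hk1 hk hc) (not_le.2 hlt)

theorem eq_of_eq {k N : ℕ} (hk1 : 1 ≤ k) (hk : k ≤ N)
    (heq : finrank ℚ (Z N) = Nat.fib (N + 1)) : finrank ℚ (Z k) = Nat.fib (k + 1) := by
  refine eq_of_lt h hk1 hk ?_
  have : 0 < Nat.fib (N - k + 1) := Nat.fib_pos.2 (by omega)
  omega

omit h in
omit [Algebra ℚ H] in
omit [CommRing H] in
theorem fib_le_pow (n k : ℕ) (hn : 1 ≤ n) : Nat.fib (n + k) ≤ 2 ^ k * Nat.fib n := by
  induction k with
  | zero => simp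
  | succ k ih =>
    obtain ⟨m, hm⟩ : ∃ m, n + k = m + 1 := ⟨n + k - 1, by omega⟩
    have h1 : Nat.fib (n + (k + 1)) = Nat.fib m + Nat.fib (m + 1) := by
      rw [← add_assoc, hm, Nat.fib_add_two]
    have h2 : Nat.fib m ≤ Nat.fib (m + 1) := Nat.fib_le_fib_succ
    rw [h1, pow_succ]
    rw [hm] at ih
    calc Nat.fib m + Nat.fib (m + 1) ≤ 2 * Nat.fib (m + 1) := by omega
      _ ≤ 2 * (2 ^ k * Nat.fib n) := Nat.mul_le_mul_left _ ih
      _ = _ := by ring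

theorem all_iff_infinite : (∀ w, 1 ≤ w → finrank ℚ (Z w) = Nat.fib (w + 1)) ↔
    ∀ N₀, ∃ N ≥ N₀, finrank ℚ (Z N) = Nat.fib (N + 1) := by
  constructor
  · intro h1 N₀
    exact ⟨N₀ + 1, by omega, h1 _ (by omega)⟩
  · intro h1 w hw
    obtain ⟨N, hN, h2⟩ := h1 w
    exact eq_of_eq h hw hN h2

theorem all_iff_asymptotic : (∀ w, 1 ≤ w → finrank ℚ (Z w) = Nat.fib (w + 1)) ↔
    ∀ ε : ℝ, 0 < ε → ∀ N₀, ∃ N ≥ N₀, (1 - ε) * Nat.fib (N + 1) ≤ finrank ℚ (Z N) := by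
  constructor
  · intro h1 ε hε N₀
    refine ⟨N₀ + 1, by omega, ?_⟩
    rw [h1 _ (by omega)]
    have : (0 : ℝ) ≤ Nat.fib (N₀ + 1 + 1) := Nat.cast_nonneg _
    nlinarith
  · intro h1 w hw
    obtain ⟨N, hN, h2⟩ := h1 ((2 ^ (w + 1) : ℝ)⁻¹) (by positivity) w
    refine eq_of_lt h hw hN ?_
    have h3 : Nat.fib (N + 1) ≤ 2 ^ w * Nat.fib (N - w + 1) := by
      have := fib_le_pow (N - w + 1) w (by omega)
      rwa [show N - w + 1 + w = N + 1 by omega] at this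
    have h4 : (Nat.fib (N + 1) : ℝ) ≤ 2 ^ w * Nat.fib (N - w + 1) := by exact_mod_cast h3
    have h5 : (0 : ℝ) < Nat.fib (N + 1) := by exact_mod_cast Nat.fib_pos.2 (Nat.succ_pos N)
    have h6 : (2 ^ (w + 1) : ℝ)⁻¹ * Nat.fib (N + 1) < Nat.fib (N - w + 1) := by
      rw [inv_mul_lt_iff₀ (by positivity), pow_succ]
      nlinarith
    have h7 : (Nat.fib (N + 1) : ℝ) < finrank ℚ (Z N) + Nat.fib (N - w + 1) := by nlinarith
    exact_mod_cast h7

end

end Pool.Agent.Q187.ZD.Fib
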