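import Pool.Agent.Q187.ZD.Quot

/-! The prounipotent radicals of the motivic Galois group and of the Grothendieck-Teichmüller
group. -/

set_option autoImplicit false

namespace Pool.Agent.Q187.ZD.GT

open Module

/-- `u n` is the number of ways to write `n` as an ordered sum of odd numbers at least `3` -/
def IsOdd3 (u : ℕ → ℕ) : Prop :=
  u 0 = 1 ∧ u 1 = 0 ∧ u 2 = 0 ∧ ∀ n, u (n + 3) = u (n + 1) + u n

/-- Known facts: `E` is the coordinate ring of the kernel `GT_1` of `GT → G_m`, graded by the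
action of `G_m`, and `H` that of the prounipotent group `U_mot` in it; `π : E → H` is the
restriction. -/
structure IsPair {E H : Type} [CommRing E] [Algebra ℚ E] [CommRing H] [Algebra ℚ H]
    (u : ℕ → ℕ) (gr : ℕ → Submodule ℚ E) (gr' : ℕ → Submodule ℚ H) (π : E →ₐ[ℚ] H) : Prop where
  domain : IsDomain E
  mul : ∀ i j, ∀ x ∈ gr i, ∀ y ∈ gr j, x * y ∈ gr (i + j)
  finite : ∀ j, FiniteDimensional ℚ (gr j)
  exhaust : ∀ x : E, ∃ N, x ∈ tot gr N
  exhaust' : ∀ x : H, ∃ N, x ∈ tot gr' N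
  indep' : iSupIndep gr'
  onto : ∀ j, (gr j).map π.toLinearMap = gr' j
  dim' : ∀ j, finrank ℚ (gr' j) = u j

theorem zagier {u : ℕ → ℕ} (hu : IsOdd3 u) : IsZagier (fun n => u (n + 3)) := by
  obtain ⟨h0, h1, h2, h3⟩ := hu
  have e3 : u 3 = u 1 + u 0 := h3 0
  have e4 : u 4 = u 2 + u 1 := h3 1
  have e5 : u 5 = u 3 + u 2 := h3 2
  refine ⟨?_, ?_, ?_, fun n => h3 (n + 3)⟩
  · change u 3 = 1
    omega
  · change u 4 = 0
    omega
  · change u 5 = 1
    omega

section
variable {u : ℕ → ℕ} (hu : IsOdd3 u)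
include hu

theorem u_pos {n : ℕ} (hn : 5 ≤ n) : 1 ≤ u n := by
  have := d_pos (zagier hu) (by omega : 2 ≤ n - 3)
  simpa [Nat.sub_add_cancel (by omega : 3 ≤ n)] using this

theorem u_pos' {n : ℕ} (h1 : n ≠ 1) (h2 : n ≠ 2) (h4 : n ≠ 4) : 1 ≤ u n := by
  rcases Nat.lt_or_ge n 5 with h | h
  · have e3 : u 3 = u 1 + u 0 := hu.2.2.2 0
    have e0 := hu.1
    obtain rfl | rfl : n = 0 ∨ n = 3 := by omega
    · omega
    · omega
  · exact u_pos hu h

theorem u_pow {n : ℕ} (hn : 5 ≤ n) (k : ℕ) : u (n + k) ≤ 2 ^ k * u n := by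
  have := d_pow (zagier hu) (by omega : 2 ≤ n - 3) k
  have e1 : n - 3 + k + 3 = n + k := by omega
  have e2 : n - 3 + 3 = n := by omega
  simpa [e1, e2] using this

end

section
variable {E H : Type} [CommRing E] [Algebra ℚ E] [CommRing H] [Algebra ℚ H] {u : ℕ → ℕ}
  {gr : ℕ → Submodule ℚ E} {gr' : ℕ → Submodule ℚ H} {π : E →ₐ[ℚ] H} (hu : IsOdd3 u)
  (hp : IsPair u gr gr' π)

section
include hp

theorem isFormal : IsFormal u gr π where
  domain := hp.domain
  mul := hp.mul
  finite := hp.finite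
  dim j := by rw [hp.onto, hp.dim']

theorem bijective_iff : Function.Bijective π ↔ ∀ k, Complete gr π k := by
  constructor
  · intro h k x _ h0
    exact h.1 (by rw [h0, map_zero])
  · intro h
    constructor
    · rw [injective_iff_map_eq_zero]
      intro x h0
      obtain ⟨N, hN⟩ := hp.exhaust x
      obtain ⟨z, hz, rfl⟩ := exists_sum gr hN
      have h1 : ∑ j ∈ Finset.range (N + 1), π (z j) = 0 := by rw [← map_sum, h0]
      have h2 := dir_of_indep hp.indep' N (fun j => π (z j))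
        (fun j _ => by rw [← hp.onto j]; exact ⟨z j, hz j, rfl⟩) h1
      refine Finset.sum_eq_zero fun j hj => ?_
      rw [Finset.mem_range] at hj
      exact h j (z j) (hz j) (h2 j (by omega))
    · intro y
      obtain ⟨N, hN⟩ := hp.exhaust' y
      have e : gr' = fun j => (gr j).map π.toLinearMap := funext fun j => (hp.onto j).symm
      rw [e, ← map_tot] at hN
      obtain ⟨x, -, hx⟩ := hN
      exact ⟨x, hx⟩

end

include hu hp

/-- equality in one weight `N` gives all weights `k ≤ N` with `N - k ∉ {1, 2, 4}` -/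
theorem one_weight {N : ℕ} (hN : finrank ℚ (gr N) = u N) {k : ℕ} (hk : k ≤ N) (h1 : N - k ≠ 1)
    (h2 : N - k ≠ 2) (h4 : N - k ≠ 4) : finrank ℚ (gr k) = u k := by
  rw [← complete_iff (isFormal hp) k]
  by_contra hc
  have h5 := extra (isFormal hp) hc hk
  have h6 := dim_le (isFormal hp) (N - k)
  have h7 := u_pos' hu h1 h2 h4
  omega

theorem infinite_iff : Function.Bijective π ↔ {N | finrank ℚ (gr N) = u N}.Infinite := by
  rw [bijective_iff hp]
  constructor
  · intro h
    have : {N | finrank ℚ (gr N) = u N} = Set.univ :=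
      Set.eq_univ_of_forall fun N => (complete_iff (isFormal hp) N).1 (h N)
    rw [this]
    exact Set.infinite_univ
  · intro h k
    obtain ⟨N, hN, hlt⟩ := h.exists_gt (k + 5)
    rw [complete_iff (isFormal hp)]
    exact one_weight hu hp hN (by omega) (by omega) (by omega) (by omega)

theorem share {k : ℕ} (h : ¬ Complete gr π k) {N : ℕ} (hN : k + 5 ≤ N) :
    (1 + (2 ^ k : ℝ)⁻¹) * u N ≤ finrank ℚ (gr N) := by
  have h1 := extra (isFormal hp) h (by omega : k ≤ N)
  have h2 := u_pow hu (by omega : 5 ≤ N - k) k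
  rw [Nat.sub_add_cancel (by omega)] at h2
  have h6 := dim_le (isFormal hp) (N - k)
  have h3 : (u N : ℝ) + u (N - k) ≤ finrank ℚ (gr N) := by exact_mod_cast (by omega)
  have h4 : (u N : ℝ) ≤ 2 ^ k * u (N - k) := by exact_mod_cast h2
  have h5 : (2 ^ k : ℝ)⁻¹ * u N ≤ u (N - k) := by
    rw [inv_mul_le_iff₀ (by positivity)]
    exact h4
  linarith

theorem liminf_iff : Function.Bijective π ↔
    ∀ ε : ℝ, 0 < ε → ∀ N₀, ∃ N ≥ N₀, (finrank ℚ (gr N) : ℝ) ≤ (1 + ε) * u N := by
  rw [bijective_iff hp]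
  constructor
  · intro h ε hε N₀
    refine ⟨N₀, le_rfl, ?_⟩
    rw [(complete_iff (isFormal hp) N₀).1 (h N₀)]
    have : (0 : ℝ) ≤ u N₀ := by positivity
    nlinarith
  · intro h k
    by_contra hk
    have hpos : (0 : ℝ) < (2 ^ k : ℝ)⁻¹ := by positivity
    obtain ⟨N, hN, h1⟩ := h ((2 ^ k : ℝ)⁻¹ / 2) (by positivity) (k + 5)
    have h2 := share hu hp hk hN
    have h3 : (1 : ℝ) ≤ u N := by exact_mod_cast u_pos hu (by omega : 5 ≤ N)
    nlinarith

end

end Pool.Agent.Q187.ZD.GT
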