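import Pool.Agent.Q187.ZD.Words
import Pool.Agent.Q187.ZD.Real

/-! Independence of a large family of Hoffman elements implies Hoffman's conjecture. -/

set_option autoImplicit false

namespace Pool.Agent.Q187.ZD.Hof

open Module
open Pool.Agent.H447R2.MZ (val Zs Adm val_mem)

/-- the theorem of Brown: the Hoffman elements of weight `k` span the space of multiple zeta
values of weight `k` -/
def Brown : Prop := ∀ k, Submodule.span ℚ (val '' {w | Word w ∧ w.sum = k}) = Zs k

theorem adm_of_word {w : List ℕ} (hw : Word w) : Adm w := by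
  refine ⟨fun a ha => ?_, fun a t h => ?_⟩
  · have := hw a ha
    omega
  · subst h
    have := hw a (by simp)
    omega

theorem coe_words (k : ℕ) : (words k : Set (List ℕ)) = {w | Word w ∧ w.sum = k} := by
  ext w
  exact mem_words w k

theorem card_le {F : Finset (List ℕ)} {f : List ℕ → ℝ} (h : LinearIndepOn ℚ f (F : Set (List ℕ)))
    (V : Submodule ℚ ℝ) [FiniteDimensional ℚ V] (hV : ∀ w ∈ F, f w ∈ V) :
    F.card ≤ finrank ℚ V := by
  have h1 := finrank_span_eq_card (R := ℚ) (b := fun x : (F : Set (List ℕ)) => f x) h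
  have h2 : Submodule.span ℚ (Set.range fun x : (F : Set (List ℕ)) => f x) ≤ V := by
    rw [Submodule.span_le]
    rintro _ ⟨x, rfl⟩
    exact hV x.1 x.2
  have h3 := Submodule.finrank_mono h2
  rw [h1] at h3
  simpa using h3

theorem indepOn_of_card {F : Finset (List ℕ)} {f : List ℕ → ℝ}
    (h : finrank ℚ (Submodule.span ℚ (f '' (F : Set (List ℕ)))) = F.card) :
    LinearIndepOn ℚ f (F : Set (List ℕ)) := by
  have h1 : LinearIndependent ℚ (fun x : (F : Set (List ℕ)) => f x) := by
    rw [linearIndependent_iff_card_eq_finrank_span, Set.finrank]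
    have e : Set.range (fun x : (F : Set (List ℕ)) => f x) = f '' (F : Set (List ℕ)) :=
      (Set.image_eq_range f _).symm
    rw [e, h]
    simp
  exact h1

/-- the words of weight at most `p` -/
def upTo (p : ℕ) : Finset (List ℕ) := (Finset.range (p + 1)).biUnion words

theorem mem_upTo (w : List ℕ) (p : ℕ) : w ∈ upTo p ↔ Word w ∧ w.sum ≤ p := by
  rw [upTo, Finset.mem_biUnion]
  constructor
  · rintro ⟨j, hj, hw⟩
    rw [Finset.mem_range] at hj
    obtain ⟨h1, h2⟩ := (mem_words w j).1 hw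
    exact ⟨h1, by omega⟩
  · rintro ⟨h1, h2⟩
    exact ⟨w.sum, Finset.mem_range.2 (by omega), (mem_words w _).2 ⟨h1, rfl⟩⟩

theorem card_upTo (p : ℕ) : (upTo p).card = S (fun n => (words n).card) p := by
  rw [upTo, Finset.card_biUnion, S]
  intro i _ j _ hij
  rw [Function.onFun, Finset.disjoint_left]
  intro w h1 h2
  exact hij (((mem_words w i).1 h1).2.symm.trans ((mem_words w j).1 h2).2)

section
variable {H : Type} [CommRing H] [Algebra ℚ H] {gr : ℕ → Submodule ℚ H} {per : H →ₐ[ℚ] ℝ}
  (hm : IsMotivic (fun n => (words n).card) Zs gr per) (hB : Brown)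

section
include hB

theorem indep_of_dim {k : ℕ} (h : finrank ℚ (Zs k) = (words k).card) :
    LinearIndepOn ℚ val {w | Word w ∧ w.sum = k} := by
  rw [← coe_words]
  apply indepOn_of_card
  rw [coe_words, hB k, h]

theorem span_upTo (p : ℕ) : Submodule.span ℚ (val '' (upTo p : Set (List ℕ))) = tot Zs p := by
  apply le_antisymm
  · rw [Submodule.span_le]
    rintro _ ⟨w, hw, rfl⟩
    obtain ⟨h1, h2⟩ := (mem_upTo w p).1 hw
    exact le_tot Zs h2 (val_mem w (adm_of_word h1))
  · refine Finset.sup_le fun j hj => ?_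
    rw [Finset.mem_range] at hj
    rw [← hB j]
    refine Submodule.span_mono (Set.image_mono ?_)
    rintro w ⟨h1, h2⟩
    exact (mem_upTo w p).2 ⟨h1, by omega⟩

end

include hm in
theorem tot_full {p N : ℕ} (hp : p ≤ N)
    (h : S (fun n => (words n).card) N <
      finrank ℚ (tot Zs N) + S (fun n => (words n).card) (N - p)) :
    finrank ℚ (tot Zs p) = S (fun n => (words n).card) p := by
  have := hm.domain
  have key : ∀ x ∈ tot gr p, per.toLinearMap x = 0 → x = 0 := by
    intro x hx h0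
    refine inj_tot per hm.mul hm.finite hp ?_ hx h0
    rw [map_tot_mot hm, finrank_tot_mot hm, finrank_tot_mot hm]
    exact h
  have h1 := finrank_map_inj per.toLinearMap (tot gr p) key
  rw [map_tot_mot hm, finrank_tot_mot hm] at h1
  exact h1

include hm hB

/-- homogeneous version: a family of words of weight `N` -/
theorem hom_of_family {k N : ℕ} (hk : k ≤ N) (F : Finset (List ℕ)) (hF : F ⊆ words N)
    (hi : LinearIndepOn ℚ val (F : Set (List ℕ)))
    (hc : (words N).card < F.card + (words (N - k)).card) :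
    LinearIndepOn ℚ val {w | Word w ∧ w.sum = k} := by
  have h1 : F.card ≤ finrank ℚ (Zs N) := by
    refine card_le hi (Zs N) fun w hw => ?_
    obtain ⟨h1, h2⟩ := (mem_words w N).1 (hF hw)
    rw [← h2]
    exact val_mem w (adm_of_word h1)
  exact indep_of_dim hB (at_weight hm hk (by omega))

/-- inhomogeneous version: a family of words of weight at most `N` -/
theorem inhom_of_family {p N : ℕ} (hp : p ≤ N) (F : Finset (List ℕ)) (hF : F ⊆ upTo N)
    (hi : LinearIndepOn ℚ val (F : Set (List ℕ)))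
    (hc : (upTo N).card < F.card + (upTo (N - p)).card) :
    LinearIndepOn ℚ val {w | Word w ∧ w.sum ≤ p} := by
  have hfin : FiniteDimensional ℚ (tot Zs N) := finite_tot Zs (fun j => finite_Zs j) N
  have h1 : F.card ≤ finrank ℚ (tot Zs N) := by
    refine card_le hi (tot Zs N) fun w hw => ?_
    obtain ⟨h1, h2⟩ := (mem_upTo w N).1 (hF hw)
    exact le_tot Zs h2 (val_mem w (adm_of_word h1))
  rw [card_upTo, card_upTo] at hc
  have h2 := tot_full hm hp (by omega)
  have h3 : LinearIndepOn ℚ val (upTo p : Set (List ℕ)) := by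
    apply indepOn_of_card
    rw [span_upTo hB, h2, card_upTo]
  refine h3.mono ?_
  rintro w ⟨h4, h5⟩
  exact (mem_upTo w p).2 ⟨h4, h5⟩

omit hm hB in
theorem indep_of_all {s : ℕ → Set (List ℕ)} (hs : Monotone s)
    (h : ∀ p, LinearIndepOn ℚ val (s p)) : LinearIndepOn ℚ val (⋃ p, s p) :=
  linearIndepOn_iUnion_of_directed (directed_of_isDirected_le hs) h

theorem all_of_families (F : Set (List ℕ)) (hi : LinearIndepOn ℚ val F)
    (hF : ∀ p, ∃ N, p ≤ N ∧
      ({w | Word w ∧ w.sum ≤ N ∧ w ∉ F}).ncard < (upTo (N - p)).card) :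
    LinearIndepOn ℚ val {w | Word w} := by
  classical
  have h1 : ∀ p, LinearIndepOn ℚ val {w | Word w ∧ w.sum ≤ p} := by
    intro p
    obtain ⟨N, hN, hc⟩ := hF p
    have e : ({w | Word w ∧ w.sum ≤ N ∧ w ∉ F} : Set (List ℕ)) =
        ((upTo N).filter fun w => w ∉ F : Finset (List ℕ)) := by
      ext w
      rw [Finset.mem_coe, Finset.mem_filter, mem_upTo]
      exact and_assoc.symm
    rw [e, Set.ncard_coe_finset] at hc
    refine inhom_of_family hm hB hN ((upTo N).filter fun w => w ∈ F)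
      (Finset.filter_subset _ _) (hi.mono fun w hw => ?_) ?_
    · exact (Finset.mem_filter.1 (Finset.mem_coe.1 hw)).2
    · have := Finset.card_filter_add_card_filter_not (s := upTo N) (fun w => w ∈ F)
      omega
  have h2 := indep_of_all (s := fun p => {w | Word w ∧ w.sum ≤ p})
    (fun p q hpq w hw => ⟨hw.1, hw.2.trans hpq⟩) h1
  refine h2.mono fun w hw => ?_
  rw [Set.mem_iUnion]
  exact ⟨w.sum, hw, le_rfl⟩

end

theorem S_ge (N : ℕ) : N ≤ S (fun n => (words n).card) (N + 1) := by
  induction N with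
  | zero => simp
  | succ N ih =>
    have h1 := d_pos isZagier (by omega : 2 ≤ N + 2)
    have h2 : S (fun n => (words n).card) (N + 1 + 1) =
      S (fun n => (words n).card) (N + 1) + (words (N + 2)).card := Finset.sum_range_succ _ _
    rw [h2]
    have h3 : 1 ≤ (words (N + 2)).card := h1
    omega

theorem ncard_avoid (v : List ℕ) (N : ℕ) :
    ({w | Word w ∧ w.sum ≤ N ∧ w ∉ {w | v <:+: w}} : Set (List ℕ)).ncard ≤
      ∑ j ∈ Finset.range (N + 1), avoid v j := by
  classical
  have e : ({w | Word w ∧ w.sum ≤ N ∧ w ∉ {w | v <:+: w}} : Set (List ℕ)) =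
      ((Finset.range (N + 1)).biUnion fun j => (words j).filter fun w => ¬ v <:+: w :
        Finset (List ℕ)) := by
    ext w
    rw [Finset.mem_coe, Finset.mem_biUnion]
    constructor
    · rintro ⟨h1, h2, h3⟩
      exact ⟨w.sum, Finset.mem_range.2 (by omega),
        Finset.mem_filter.2 ⟨(mem_words w _).2 ⟨h1, rfl⟩, h3⟩⟩
    · rintro ⟨j, hj, hw⟩
      obtain ⟨h1, h2⟩ := Finset.mem_filter.1 hw
      obtain ⟨h3, h4⟩ := (mem_words w j).1 h1
      rw [Finset.mem_range] at hj
      exact ⟨h3, by omega, h2⟩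
  rw [e, Set.ncard_coe_finset]
  refine Finset.card_biUnion_le.trans (le_of_eq ?_)
  refine Finset.sum_congr rfl fun j _ => ?_
  rw [avoid]

/-- for large `N` fewer than `S (N - p)` words of weight at most `N` avoid `v` -/
theorem few (v : List ℕ) (hv : Word v) (p : ℕ) : ∃ N, p ≤ N ∧
    ({w | Word w ∧ w.sum ≤ N ∧ w ∉ {w | v <:+: w}} : Set (List ℕ)).ncard <
      (upTo (N - p)).card := by
  have hε : (0 : ℝ) < (2 ^ (p + 1) : ℝ)⁻¹ := by positivity
  obtain ⟨J, hJ⟩ := avoid_small v hv hε
  let D : ℕ → ℕ := fun n => (words n).card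
  -- `N` with `2 ^ (p + 1) * S D J < S D N`
  let N := 2 ^ (p + 1) * S D J + J + p + 2
  have hbig : 2 ^ (p + 1) * S D J < S D N := by
    have h1 := S_ge (2 ^ (p + 1) * S D J + J + p + 1)
    have h2 : N = 2 ^ (p + 1) * S D J + J + p + 1 + 1 := rfl
    rw [h2]
    exact lt_of_lt_of_le (by omega) h1
  refine ⟨N, by omega, ?_⟩
  have h1 := ncard_avoid v N
  have h2 : (∑ j ∈ Finset.range (N + 1), (avoid v j : ℝ)) ≤
      S D J + (2 ^ (p + 1) : ℝ)⁻¹ * S D N := by
    have h3 : ∀ j ∈ Finset.range (N + 1), (avoid v j : ℝ) ≤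
        (if j ≤ J then (D j : ℝ) else 0) + (2 ^ (p + 1) : ℝ)⁻¹ * D j := by
      intro j _
      have h0 : (0 : ℝ) ≤ (2 ^ (p + 1) : ℝ)⁻¹ * D j := by positivity
      split_ifs with h
      · have : (avoid v j : ℝ) ≤ D j := by exact_mod_cast avoid_le v j
        linarith
      · rw [zero_add]
        exact hJ j (by omega)
    refine (Finset.sum_le_sum h3).trans ?_
    rw [Finset.sum_add_distrib, ← Finset.mul_sum]
    have h4 : (∑ j ∈ Finset.range (N + 1), (if j ≤ J then (D j : ℝ) else 0)) = S D J := by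
      rw [← Finset.sum_filter, S]
      push_cast
      refine Finset.sum_congr ?_ fun _ _ => rfl
      ext j
      simp only [Finset.mem_filter, Finset.mem_range]
      omega
    have h5 : (∑ j ∈ Finset.range (N + 1), (D j : ℝ)) = S D N := by
      rw [S]
      push_cast
      rfl
    rw [h4, h5]
  have h3 := S_pow isZagier (N - p) p
  rw [Nat.sub_add_cancel (by omega)] at h3
  have h4 : (S D N : ℝ) ≤ 2 ^ p * S D (N - p) := by exact_mod_cast h3
  have h5 : (2 ^ (p + 1) : ℝ) * S D J < S D N := by exact_mod_cast hbig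
  have h6 : (({w | Word w ∧ w.sum ≤ N ∧ w ∉ {w | v <:+: w}} : Set (List ℕ)).ncard : ℝ) ≤
      ∑ j ∈ Finset.range (N + 1), (avoid v j : ℝ) := by exact_mod_cast h1
  have h7 : (S D J : ℝ) < (2 ^ (p + 1) : ℝ)⁻¹ * S D N := by
    rw [lt_inv_mul_iff₀ (by positivity)]
    exact h5
  have h8 : (2 ^ (p + 1) : ℝ)⁻¹ * S D N ≤ S D (N - p) / 2 := by
    rw [inv_mul_le_iff₀ (by positivity), pow_succ]
    linarith
  rw [card_upTo]
  have h9 : (({w | Word w ∧ w.sum ≤ N ∧ w ∉ {w | v <:+: w}} : Set (List ℕ)).ncard : ℝ) <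
      S D (N - p) := by linarith
  exact_mod_cast h9

/-- homogeneous: for all large `N` fewer than `d (N - k)` words of weight `N` avoid `v` -/
theorem few_hom (v : List ℕ) (hv : Word v) (k : ℕ) : ∃ N₀, ∀ N ≥ N₀, k ≤ N ∧
    avoid v N < (words (N - k)).card := by
  have hε : (0 : ℝ) < (2 ^ (k + 1) : ℝ)⁻¹ := by positivity
  obtain ⟨J, hJ⟩ := avoid_small v hv hε
  refine ⟨J + k + 2, fun N hN => ⟨by omega, ?_⟩⟩
  have h1 := hJ N (by omega)
  have h2 := d_pow isZagier (by omega : 2 ≤ N - k) k
  rw [Nat.sub_add_cancel (by omega)] at h2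
  have h3 : ((words N).card : ℝ) ≤ 2 ^ k * (words (N - k)).card := by exact_mod_cast h2
  have h4 : (2 ^ (k + 1) : ℝ)⁻¹ * (words N).card ≤ (words (N - k)).card / 2 := by
    rw [inv_mul_le_iff₀ (by positivity), pow_succ]
    linarith
  have h5 : (1 : ℝ) ≤ (words (N - k)).card := by
    exact_mod_cast d_pos isZagier (by omega : 2 ≤ N - k)
  have h6 : (avoid v N : ℝ) < (words (N - k)).card := by linarith
  exact_mod_cast h6

end Pool.Agent.Q187.ZD.Hof
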