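import Pool.Agent.Q187.ZD.Hof

/-! The statements on Hoffman's conjecture. -/

set_option autoImplicit false

namespace Pool.Agent.Q187.ZD.Hof

open Module
open Pool.Agent.H447R2.MZ (val Zs)

/-- the Hoffman elements of weight `k` form a basis of the space of multiple zeta values of
weight `k` -/
def HBasis (k : ℕ) : Prop :=
  LinearIndepOn ℚ val {w | Word w ∧ w.sum = k} ∧
    Submodule.span ℚ (val '' {w | Word w ∧ w.sum = k}) = Zs k

/-- the Hoffman elements form a basis of the space of all multiple zeta values -/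
def IsBasis : Prop :=
  LinearIndepOn ℚ val {w | Word w} ∧ Submodule.span ℚ (val '' {w | Word w}) = ⨆ k, Zs k

section
variable {H : Type} [CommRing H] [Algebra ℚ H] {gr : ℕ → Submodule ℚ H} {per : H →ₐ[ℚ] ℝ}
  (hm : IsMotivic (fun n => (words n).card) Zs gr per) (hB : Brown)

include hB in
theorem spans : Submodule.span ℚ (val '' {w | Word w}) = ⨆ k, Zs k := by
  have e : {w : List ℕ | Word w} = ⋃ k, {w | Word w ∧ w.sum = k} := by
    ext w
    rw [Set.mem_iUnion]
    exact ⟨fun h => ⟨w.sum, h, rfl⟩, fun ⟨_, h⟩ => h.1⟩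
  rw [e, Set.image_iUnion, Submodule.span_iUnion]
  exact iSup_congr fun k => hB k

include hm hB

theorem hom_family {k N : ℕ} (hk : k ≤ N) (F : Finset (List ℕ)) (hF : F ⊆ words N)
    (hi : LinearIndepOn ℚ val (F : Set (List ℕ)))
    (hc : (words N \ F).card < (words (N - k)).card) : HBasis k := by
  refine ⟨hom_of_family hm hB hk F hF hi ?_, hB k⟩
  have := Finset.card_sdiff_add_card_eq_card hF
  omega

theorem hom_factor (v : List ℕ) (hv : Word v) (k : ℕ) : ∃ N₀, ∀ N ≥ N₀,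
    LinearIndepOn ℚ val {w | Word w ∧ w.sum = N ∧ v <:+: w} → HBasis k := by
  classical
  obtain ⟨N₀, h⟩ := few_hom v hv k
  refine ⟨N₀, fun N hN hi => ?_⟩
  obtain ⟨h1, h2⟩ := h N hN
  refine hom_family hm hB h1 ((words N).filter fun w => v <:+: w) (Finset.filter_subset _ _)
    (hi.mono ?_) ?_
  · intro w hw
    obtain ⟨h3, h4⟩ := Finset.mem_filter.1 (Finset.mem_coe.1 hw)
    obtain ⟨h5, h6⟩ := (mem_words w N).1 h3
    exact ⟨h5, h6, h4⟩
  · refine lt_of_le_of_lt (Finset.card_le_card ?_) (h2.trans_eq rfl)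
    intro w hw
    rw [Finset.mem_sdiff, Finset.mem_filter] at hw
    exact Finset.mem_filter.2 ⟨hw.1, fun h => hw.2 ⟨hw.1, h⟩⟩

theorem hom_iff (v : List ℕ) (hv : Word v) : (∀ k, HBasis k) ↔
    {N | LinearIndepOn ℚ val {w | Word w ∧ w.sum = N ∧ v <:+: w}}.Infinite := by
  constructor
  · intro h
    have : {N | LinearIndepOn ℚ val {w | Word w ∧ w.sum = N ∧ v <:+: w}} = Set.univ :=
      Set.eq_univ_of_forall fun N => (h N).1.mono fun w hw => ⟨hw.1, hw.2.1⟩
    rw [this]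
    exact Set.infinite_univ
  · intro h k
    obtain ⟨N₀, h1⟩ := hom_factor hm hB v hv k
    obtain ⟨N, hN, hlt⟩ := h.exists_gt N₀
    exact h1 N hlt.le hN

theorem inhom_family (F : Set (List ℕ)) (hi : LinearIndepOn ℚ val F)
    (hF : ∀ p, ∃ N, p ≤ N ∧
      ({w | Word w ∧ w.sum ≤ N ∧ w ∉ F}).ncard < (upTo (N - p)).card) : IsBasis :=
  ⟨all_of_families hm hB F hi hF, spans hB⟩

theorem inhom_density (F : Set (List ℕ)) (hi : LinearIndepOn ℚ val F)
    (hF : ∀ ε : ℝ, 0 < ε → ∀ N₀, ∃ N ≥ N₀,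
      (({w | Word w ∧ w.sum ≤ N ∧ w ∉ F}).ncard : ℝ) ≤ ε * (upTo N).card) : IsBasis := by
  refine inhom_family hm hB F hi fun p => ?_
  obtain ⟨N, hN, h1⟩ := hF ((2 ^ (p + 1) : ℝ)⁻¹) (by positivity) p
  refine ⟨N, hN, ?_⟩
  have h3 := S_pow isZagier (N - p) p
  rw [Nat.sub_add_cancel hN, ← card_upTo, ← card_upTo] at h3
  have h4 : ((upTo N).card : ℝ) ≤ 2 ^ p * (upTo (N - p)).card := by exact_mod_cast h3
  have h8 : (2 ^ (p + 1) : ℝ)⁻¹ * (upTo N).card ≤ (upTo (N - p)).card / 2 := by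
    rw [inv_mul_le_iff₀ (by positivity), pow_succ]
    linarith
  have h5 : (1 : ℝ) ≤ (upTo (N - p)).card := by
    have := S_pos isZagier (N - p)
    rw [← card_upTo] at this
    exact_mod_cast this
  have h9 : (({w | Word w ∧ w.sum ≤ N ∧ w ∉ F}).ncard : ℝ) < (upTo (N - p)).card := by linarith
  exact_mod_cast h9

theorem inhom_iff (v : List ℕ) (hv : Word v) :
    IsBasis ↔ LinearIndepOn ℚ val {w | Word w ∧ v <:+: w} := by
  constructor
  · intro h
    exact h.1.mono fun w hw => hw.1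
  · intro h
    refine inhom_family hm hB _ h fun p => ?_
    obtain ⟨N, hN, h1⟩ := few v hv p
    refine ⟨N, hN, lt_of_le_of_lt (le_of_eq ?_) h1⟩
    congr 1
    ext w
    constructor
    · rintro ⟨h2, h3, h4⟩
      exact ⟨h2, h3, fun h5 => h4 ⟨h2, h5⟩⟩
    · rintro ⟨h2, h3, h4⟩
      exact ⟨h2, h3, fun h5 => h4 h5.2⟩

end

end Pool.Agent.Q187.ZD.Hof
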