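import Pool.Agent.Q187.ZD.Real

/-! The ring of associators and the KZ point. -/

set_option autoImplicit false

namespace Pool.Agent.Q187.ZD.KZ

open Module
open Pool.Agent.H447R2.MZ

/-- the span of the numbers `(2 π i) ^ a * ζ(s)` with `a + weight s ≤ N` -/
noncomputable def T (N : ℕ) : Submodule ℚ ℂ :=
  Submodule.span ℚ {x | ∃ (a w : ℕ) (z : ℝ), a + w ≤ N ∧ z ∈ Zs w ∧
    x = (2 * Real.pi * Complex.I) ^ a * (z : ℂ)}

/-- Known facts on the coordinate ring `R = ℚ[M]` of the scheme of associators; `gr j` is the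
image of the homogeneous polynomials of degree `j` in `μ` and the coordinates `φ_b`, `μ` has
degree `1`, and `φ` is the homomorphism of `(2 π i, Φ_KZ)`. -/
structure IsAssociatorRing {R : Type} [CommRing R] [Algebra ℚ R] (gr : ℕ → Submodule ℚ R)
    (μ : R) (φ : R →ₐ[ℚ] ℂ) : Prop where
  domain : IsDomain R
  mul : ∀ i j, ∀ x ∈ gr i, ∀ y ∈ gr j, x * y ∈ gr (i + j)
  finite : ∀ j, FiniteDimensional ℚ (gr j)
  one : (1 : R) ∈ gr 0
  unit : IsUnit μ
  generate : ∀ x : R, ∃ a N, μ ^ a * x ∈ tot gr N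
  growth : ∀ N, finrank ℚ (tot gr N) ≤ 2 ^ (N + 2)
  image : ∀ N, (tot gr N).map φ.toLinearMap = T N

/-- the growth lemma with a general bound -/
theorem growth' (D : ℕ → ℕ) (h0 : ∀ N, 1 ≤ D N) (hD : ∀ N, D N ≤ 2 ^ (N + 2)) (p N₀ : ℕ) :
    ∃ N ≥ N₀, D (N + p) < 2 ^ (p + 1) * D N := by
  by_contra hcon
  push Not at hcon
  have key : ∀ i, (2 ^ (p + 1)) ^ i ≤ D (N₀ + i * p) := by
    intro i
    induction i with
    | zero => simpa using h0 N₀
    | succ i ih =>
      have := hcon (N₀ + i * p) (by omega)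
      calc (2 ^ (p + 1)) ^ (i + 1) = 2 ^ (p + 1) * (2 ^ (p + 1)) ^ i := by ring
        _ ≤ 2 ^ (p + 1) * D (N₀ + i * p) := Nat.mul_le_mul_left _ ih
        _ ≤ D (N₀ + i * p + p) := this
        _ = D (N₀ + (i + 1) * p) := by congr 1; ring
  have h1 := (key (N₀ + 3)).trans (hD _)
  rw [← pow_mul] at h1
  have h2 := (Nat.pow_le_pow_iff_right (by norm_num : 1 < 2)).1 h1
  nlinarith

section
variable {R : Type} [CommRing R] [Algebra ℚ R] {gr : ℕ → Submodule ℚ R} {μ : R} {φ : R →ₐ[ℚ] ℂ}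
  (h : IsAssociatorRing gr μ φ)
include h

theorem r_pos (N : ℕ) : 1 ≤ finrank ℚ (tot gr N) := by
  have := h.domain
  have := finite_tot gr h.finite N
  have h1 : (1 : R) ∈ tot gr N := le_tot gr (Nat.zero_le N) h.one
  have : 0 < finrank ℚ (tot gr N) := by
    rw [Module.finrank_pos_iff]
    exact ⟨⟨⟨1, h1⟩, 0, fun h => one_ne_zero (congrArg Subtype.val h)⟩⟩
  omega

/-- a relation in degree at most `p` -/
def Relation (gr : ℕ → Submodule ℚ R) (φ : R →ₐ[ℚ] ℂ) (p : ℕ) : Prop :=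
  ∃ x ∈ tot gr p, x ≠ 0 ∧ φ x = 0

omit h in
theorem injective_iff (h : IsAssociatorRing gr μ φ) :
    Function.Injective φ ↔ ∀ p, ¬ Relation gr φ p := by
  constructor
  · rintro hi p ⟨x, -, hx0, h0⟩
    exact hx0 (hi (by rw [h0, map_zero]))
  · intro hr
    rw [injective_iff_map_eq_zero]
    intro x h0
    obtain ⟨a, N, hN⟩ := h.generate x
    by_contra hx
    refine hr N ⟨_, hN, ?_, by rw [map_mul, h0, mul_zero]⟩
    intro h1
    have hu : IsUnit (μ ^ a) := h.unit.pow a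
    exact hx ((hu.mul_right_eq_zero).1 h1)

theorem drop {p N : ℕ} (hp : p ≤ N) (hr : Relation gr φ p) :
    finrank ℚ (T N) + finrank ℚ (tot gr (N - p)) ≤ finrank ℚ (tot gr N) := by
  have := h.domain
  obtain ⟨x, hx, hx0, h0⟩ := hr
  rw [← h.image N]
  exact drop_tot φ h.mul h.finite hp hx hx0 h0

theorem full_of_injective (hi : Function.Injective φ) (N : ℕ) :
    finrank ℚ (T N) = finrank ℚ (tot gr N) := by
  rw [← h.image N]
  refine finrank_map_inj _ _ fun x _ h0 => hi ?_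
  rw [map_zero]
  exact h0

theorem counts :
    Function.Injective φ ↔ ∀ p, ∃ N, p ≤ N ∧
      finrank ℚ (tot gr N) < finrank ℚ (T N) + finrank ℚ (tot gr (N - p)) := by
  constructor
  · intro hi p
    refine ⟨p, le_rfl, ?_⟩
    rw [full_of_injective h hi p]
    have := r_pos h (p - p)
    omega
  · intro hc
    rw [injective_iff h]
    intro p hr
    obtain ⟨N, hN, h1⟩ := hc p
    have := drop h hN hr
    omega

theorem fixed_share {p : ℕ} (hr : Relation gr φ p) (N₀ : ℕ) : ∃ N ≥ N₀,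
    (finrank ℚ (T N) : ℝ) < (1 - (2 ^ (p + 1) : ℝ)⁻¹) * finrank ℚ (tot gr N) := by
  obtain ⟨N, hN, h2⟩ := growth' (fun N => finrank ℚ (tot gr N)) (r_pos h) h.growth p N₀
  refine ⟨N + p, by omega, ?_⟩
  have h4 := drop h (N := N + p) (by omega) hr
  rw [Nat.add_sub_cancel] at h4
  have h5 : (finrank ℚ (T (N + p)) : ℝ) + finrank ℚ (tot gr N) ≤ finrank ℚ (tot gr (N + p)) := by
    exact_mod_cast h4
  have h6 : (finrank ℚ (tot gr (N + p)) : ℝ) < 2 ^ (p + 1) * finrank ℚ (tot gr N) := by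
    exact_mod_cast h2
  have h8 : (2 ^ (p + 1) : ℝ)⁻¹ * finrank ℚ (tot gr (N + p)) < finrank ℚ (tot gr N) := by
    rw [inv_mul_lt_iff₀ (by positivity)]
    exact h6
  linarith

theorem limit :
    Function.Injective φ ↔ Filter.Tendsto
      (fun N => (finrank ℚ (T N) : ℝ) / finrank ℚ (tot gr N)) Filter.atTop (nhds 1) := by
  constructor
  · intro hi
    have : (fun N => (finrank ℚ (T N) : ℝ) / finrank ℚ (tot gr N)) = fun _ => 1 := by
      funext N
      rw [full_of_injective h hi N]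
      have := r_pos h N
      exact div_self (by positivity)
    rw [this]
    exact tendsto_const_nhds
  · intro ht
    rw [injective_iff h]
    intro p hr
    have hε : (0 : ℝ) < (2 ^ (p + 1) : ℝ)⁻¹ := by positivity
    have h1 := (tendsto_order.1 ht).1 (1 - (2 ^ (p + 1) : ℝ)⁻¹) (by linarith)
    rw [Filter.eventually_atTop] at h1
    obtain ⟨N₀, hN₀⟩ := h1
    obtain ⟨N, hN, h2⟩ := fixed_share h hr N₀
    have h3 := hN₀ N hN
    have h7 : (0 : ℝ) < finrank ℚ (tot gr N) := by exact_mod_cast r_pos h N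
    rw [lt_div_iff₀ h7] at h3
    linarith

end

end Pool.Agent.Q187.ZD.KZ
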