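import Pool.Agent.Q187.ZD.Basic

/-! Zero-one laws for the kernel of a homomorphism on a graded domain: the theorems. -/

set_option autoImplicit false

namespace Pool.Agent.Q187.ZD

open Module

section
variable {F H E : Type*} [Field F] [CommRing H] [IsDomain H] [Algebra F H] [CommRing E]
  [Algebra F E] {gr : ℕ → Submodule F H} (φ : H →ₐ[F] E)

/-- homogeneous version -/
theorem drop_hom (hm : ∀ i j, ∀ x ∈ gr i, ∀ y ∈ gr j, x * y ∈ gr (i + j))
    (hf : ∀ j, FiniteDimensional F (gr j)) {k N : ℕ} (hk : k ≤ N) {x : H} (hx : x ∈ gr k)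
    (hx0 : x ≠ 0) (h0 : φ x = 0) :
    finrank F ((gr N).map φ.toLinearMap) + finrank F (gr (N - k)) ≤ finrank F (gr N) := by
  have := hf N
  refine rank_drop φ.toLinearMap hx0 (gr N) (gr (N - k)) (fun u hu => ?_) (fun u _ => ?_)
  · have := hm k (N - k) x hx u hu
    rwa [Nat.add_sub_cancel' hk] at this
  · simp [h0]

/-- inhomogeneous version -/
theorem drop_tot (hm : ∀ i j, ∀ x ∈ gr i, ∀ y ∈ gr j, x * y ∈ gr (i + j))
    (hf : ∀ j, FiniteDimensional F (gr j)) {p N : ℕ} (hp : p ≤ N) {x : H} (hx : x ∈ tot gr p)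
    (hx0 : x ≠ 0) (h0 : φ x = 0) :
    finrank F ((tot gr N).map φ.toLinearMap) + finrank F (tot gr (N - p)) ≤
      finrank F (tot gr N) := by
  have := finite_tot gr hf N
  refine rank_drop φ.toLinearMap hx0 (tot gr N) (tot gr (N - p)) (fun u hu => ?_) (fun u _ => ?_)
  · have := mul_tot gr hm hx hu
    rwa [Nat.add_sub_cancel' hp] at this
  · simp [h0]

/-- injectivity on `tot gr p` -/
theorem inj_tot (hm : ∀ i j, ∀ x ∈ gr i, ∀ y ∈ gr j, x * y ∈ gr (i + j))
    (hf : ∀ j, FiniteDimensional F (gr j)) {p N : ℕ} (hp : p ≤ N)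
    (h : finrank F (tot gr N) <
      finrank F ((tot gr N).map φ.toLinearMap) + finrank F (tot gr (N - p))) {x : H}
    (hx : x ∈ tot gr p) (h0 : φ x = 0) : x = 0 := by
  by_contra hx0
  exact absurd (drop_tot φ hm hf hp hx hx0 h0) (not_le.2 h)

/-- the dimension of the image of a subspace on which the map is injective -/
theorem finrank_map_inj {M M' : Type*} [AddCommGroup M] [Module F M] [AddCommGroup M']
    [Module F M'] (f : M →ₗ[F] M') (V : Submodule F M) (h : ∀ x ∈ V, f x = 0 → x = 0) :
    finrank F (V.map f) = finrank F V := by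
  have h2 : LinearMap.range (f.domRestrict V) = V.map f := by
    ext y
    simp only [LinearMap.mem_range, LinearMap.domRestrict_apply, Subtype.exists, exists_prop,
      Submodule.mem_map]
  rw [← h2]
  apply LinearMap.finrank_range_of_inj
  rw [← LinearMap.ker_eq_bot, LinearMap.ker_eq_bot']
  intro v hv
  exact Subtype.ext (h v.1 v.2 hv)

end

section
variable {F M M' : Type*} [Field F] [AddCommGroup M] [Module F M] [AddCommGroup M'] [Module F M']

/-- the elementary form of independence up to `p` -/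
def Dir (Z : ℕ → Submodule F M) (p : ℕ) : Prop :=
  ∀ z : ℕ → M, (∀ j ≤ p, z j ∈ Z j) → ∑ j ∈ Finset.range (p + 1), z j = 0 → ∀ j ≤ p, z j = 0

theorem dir_of_indep {Z : ℕ → Submodule F M} (h : iSupIndep Z) (p : ℕ) : Dir Z p := by
  intro z hz h0
  induction p with
  | zero =>
    intro j hj
    obtain rfl : j = 0 := by omega
    simpa using h0
  | succ p ih =>
    rw [Finset.sum_range_succ] at h0
    have h1 : z (p + 1) ∈ tot Z p := by
      have : z (p + 1) = - ∑ j ∈ Finset.range (p + 1), z j := by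
        rw [eq_neg_iff_add_eq_zero, add_comm]
        exact h0
      rw [this]
      exact neg_mem (sum_mem_tot Z fun j hj => hz j (by omega))
    have h2 : z (p + 1) = 0 :=
      Submodule.disjoint_def.1 (disjoint_tot Z h p) _ h1 (hz _ le_rfl)
    rw [h2, add_zero] at h0
    intro j hj
    rcases Nat.lt_or_ge p j with h3 | h3
    · obtain rfl : j = p + 1 := by omega
      exact h2
    · exact ih (fun j hj => hz j (by omega)) h0 j h3

theorem indep_of_dir {Z : ℕ → Submodule F M} (h : ∀ p, Dir Z p) : iSupIndep Z := by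
  classical
  apply iSupIndep_of_dfinsupp_lsum_injective
  rw [injective_iff_map_eq_zero]
  intro m hm
  obtain ⟨N, hN⟩ : ∃ N, ∀ j, N < j → m j = 0 := by
    refine ⟨m.support.sup id, fun j hj => ?_⟩
    by_contra h0
    have := Finset.le_sup (f := id) (DFinsupp.mem_support_iff.2 h0)
    simp only [id] at this
    omega
  have h1 : ∑ j ∈ Finset.range (N + 1), ((m j : Z j) : M) = 0 := by
    rw [← hm, DFinsupp.lsum_apply_apply, DFinsupp.sumAddHom_apply, DFinsupp.sum]
    symm
    apply Finset.sum_subset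
    · intro j hj
      rw [Finset.mem_range]
      by_contra h2
      exact (DFinsupp.mem_support_iff.1 hj) (hN j (by omega))
    · intro j _ hj
      rw [DFinsupp.notMem_support_iff] at hj
      rw [hj]
      simp
  ext j
  rcases Nat.lt_or_ge N j with h2 | h2
  · rw [hN j h2]
    rfl
  · exact h N (fun j => m j) (fun j _ => (m j).2) h1 j h2

theorem dir_map (f : M →ₗ[F] M') {gr : ℕ → Submodule F M} {p : ℕ} (hd : Dir gr p)
    (h : ∀ x ∈ tot gr p, f x = 0 → x = 0) : Dir (fun j => (gr j).map f) p := by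
  intro z hz h0
  have hz' : ∀ j, ∃ y, j ≤ p → y ∈ gr j ∧ f y = z j := by
    intro j
    by_cases hj : j ≤ p
    · obtain ⟨y, hy, hy'⟩ := hz j hj
      exact ⟨y, fun _ => ⟨hy, hy'⟩⟩
    · exact ⟨0, fun h => absurd h hj⟩
  choose y hy using hz'
  have h1 : ∑ j ∈ Finset.range (p + 1), y j = 0 := by
    apply h _ (sum_mem_tot gr fun j hj => (hy j hj).1)
    rw [map_sum, ← h0]
    refine Finset.sum_congr rfl fun j hj => ?_
    rw [Finset.mem_range] at hj
    exact (hy j (by omega)).2
  intro j hj
  rw [← (hy j hj).2, hd y (fun j hj => (hy j hj).1) h1 j hj, map_zero]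

end

end Pool.Agent.Q187.ZD
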