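import Pool.Agent.Q187.ZD.Main

/-! Zero-one laws for real multiple zeta values from the algebra of motivic ones. -/

set_option autoImplicit false

namespace Pool.Agent.Q187.ZD

open Module

/-- The known structure of the algebra `H` of motivic multiple zeta values: a graded domain whose
part of weight `j` has dimension `d j`, with a homomorphism `per` to the real numbers which maps
the part of weight `j` onto `Z j`. -/
structure IsMotivic {H : Type} [CommRing H] [Algebra ℚ H] (d : ℕ → ℕ) (Z : ℕ → Submodule ℚ ℝ)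
    (gr : ℕ → Submodule ℚ H) (per : H →ₐ[ℚ] ℝ) : Prop where
  domain : IsDomain H
  indep : iSupIndep gr
  mul : ∀ i j, ∀ x ∈ gr i, ∀ y ∈ gr j, x * y ∈ gr (i + j)
  finite : ∀ j, FiniteDimensional ℚ (gr j)
  dim : ∀ j, finrank ℚ (gr j) = d j
  period : ∀ j, (gr j).map per.toLinearMap = Z j

/-- the recursion of Zagier -/
def IsZagier (d : ℕ → ℕ) : Prop :=
  d 0 = 1 ∧ d 1 = 0 ∧ d 2 = 1 ∧ ∀ n, d (n + 3) = d (n + 1) + d n

/-- `d 0 + ... + d N` -/
def S (d : ℕ → ℕ) (N : ℕ) : ℕ := ∑ j ∈ Finset.range (N + 1), d j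

section
variable {d : ℕ → ℕ} (hd : IsZagier d)
include hd

theorem d_mono (n : ℕ) : d (n + 1) ≤ d (n + 2) := by
  obtain ⟨h0, h1, h2, h3⟩ := hd
  have : ∀ n, d (n + 1) ≤ d (n + 2) ∧ d (n + 2) ≤ d (n + 3) ∧ d (n + 3) ≤ d (n + 4) := by
    intro n
    induction n with
    | zero =>
      have e3 : d 3 = d 1 + d 0 := h3 0
      have e4 : d 4 = d 2 + d 1 := h3 1
      change d 1 ≤ d 2 ∧ d 2 ≤ d 3 ∧ d 3 ≤ d 4
      omega
    | succ n ih =>
      obtain ⟨a, b, c⟩ := ih
      refine ⟨b, c, ?_⟩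
      have e1 := h3 (n + 2)
      have e2 := h3 (n + 1)
      have e3 : d (n + 1 + 4) = d (n + 2 + 3) := rfl
      have e4 : d (n + 1 + 3) = d (n + 1 + 1) + d (n + 1) := e2
      have e5 : d (n + 2 + 3) = d (n + 2 + 1) + d (n + 2) := e1
      have e6 : d (n + 2 + 1) = d (n + 3) := rfl
      have e7 : d (n + 1 + 1) = d (n + 2) := rfl
      omega
  exact (this n).1

theorem d_mono' {m n : ℕ} (hm : 1 ≤ m) (h : m ≤ n) : d m ≤ d n := by
  obtain ⟨k, rfl⟩ := Nat.exists_eq_add_of_le h
  induction k with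
  | zero => exact le_rfl
  | succ k ih =>
    have h1 := ih (by omega)
    obtain ⟨j, hj⟩ : ∃ j, m + k = j + 1 := ⟨m + k - 1, by omega⟩
    have h2 := d_mono hd j
    rw [← hj] at h2
    have e : j + 2 = m + (k + 1) := by omega
    rw [e] at h2
    exact h1.trans h2

theorem d_pos {n : ℕ} (hn : 2 ≤ n) : 1 ≤ d n := by
  have := d_mono' hd (by norm_num : 1 ≤ 2) hn
  rw [hd.2.2.1] at this
  exact this

theorem d_double {n : ℕ} (hn : 2 ≤ n) : d (n + 1) ≤ 2 * d n := by
  obtain ⟨m, rfl⟩ := Nat.exists_eq_add_of_le' hn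
  rcases Nat.eq_zero_or_pos m with rfl | hm
  · have h3 : d 3 = d 1 + d 0 := hd.2.2.2 0
    have := hd.1
    have := hd.2.1
    have := hd.2.2.1
    change d 3 ≤ 2 * d 2
    omega
  · have h3 := hd.2.2.2 m
    have h4 := d_mono' hd (by omega : 1 ≤ m + 1) (by omega : m + 1 ≤ m + 2)
    have h5 := d_mono' hd (by omega : 1 ≤ m) (by omega : m ≤ m + 2)
    have e : m + 2 + 1 = m + 3 := rfl
    rw [e, h3]
    omega

theorem d_pow {n : ℕ} (hn : 2 ≤ n) (k : ℕ) : d (n + k) ≤ 2 ^ k * d n := by
  induction k with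
  | zero => simp
  | succ k ih =>
    have := d_double hd (by omega : 2 ≤ n + k)
    rw [pow_succ]
    have e : n + (k + 1) = n + k + 1 := rfl
    rw [e]
    calc d (n + k + 1) ≤ 2 * d (n + k) := this
      _ ≤ 2 * (2 ^ k * d n) := Nat.mul_le_mul_left _ ih
      _ = _ := by ring

theorem d_le_S (N : ℕ) : d (N + 1) ≤ S d N := by
  obtain ⟨h0, h1, h2, h3⟩ := hd
  rcases N with _ | _ | N
  · simp [h1]
  · have : S d 1 = 1 := by simp [S, Finset.sum_range_succ, h0, h1]
    rw [this, h2]
  · have e : d (N + 2 + 1) = d (N + 1) + d N := h3 N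
    rw [e, S, Finset.sum_range_succ, Finset.sum_range_succ, Finset.sum_range_succ]
    omega

theorem S_double (N : ℕ) : S d (N + 1) ≤ 2 * S d N := by
  have h1 := d_le_S hd N
  have h2 : S d (N + 1) = S d N + d (N + 1) := Finset.sum_range_succ _ _
  omega

theorem S_pow (N k : ℕ) : S d (N + k) ≤ 2 ^ k * S d N := by
  induction k with
  | zero => simp
  | succ k ih =>
    have := S_double hd (N + k)
    rw [pow_succ]
    have e : N + (k + 1) = N + k + 1 := rfl
    rw [e]
    calc S d (N + k + 1) ≤ 2 * S d (N + k) := this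
      _ ≤ 2 * (2 ^ k * S d N) := Nat.mul_le_mul_left _ ih
      _ = _ := by ring

theorem S_pos (N : ℕ) : 1 ≤ S d N := by
  have : d 0 ≤ S d N :=
    Finset.single_le_sum (f := d) (fun _ _ => Nat.zero_le _) (Finset.mem_range.2 (Nat.succ_pos N))
  rw [hd.1] at this
  exact this

end

section
variable {H : Type} [CommRing H] [Algebra ℚ H] {d : ℕ → ℕ} {Z : ℕ → Submodule ℚ ℝ}
  {gr : ℕ → Submodule ℚ H} {per : H →ₐ[ℚ] ℝ} (hm : IsMotivic d Z gr per)
include hm

theorem map_tot_mot (N : ℕ) : (tot gr N).map per.toLinearMap = tot Z N := by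
  rw [map_tot]
  congr 1
  funext j
  exact hm.period j

theorem finrank_tot_mot (N : ℕ) : finrank ℚ (tot gr N) = S d N := by
  rw [finrank_tot gr hm.indep hm.finite, S]
  exact Finset.sum_congr rfl fun j _ => hm.dim j

/-- inhomogeneous: one dimension count gives everything up to weight `p` -/
theorem up_to {p N : ℕ} (hp : p ≤ N) (h : S d N < finrank ℚ (tot Z N) + S d (N - p)) :
    (∀ j ≤ p, finrank ℚ (Z j) = d j) ∧ Dir Z p := by
  have := hm.domain
  have key : ∀ x ∈ tot gr p, per.toLinearMap x = 0 → x = 0 := by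
    intro x hx h0
    refine inj_tot per hm.mul hm.finite hp ?_ hx h0
    rw [map_tot_mot hm, finrank_tot_mot hm, finrank_tot_mot hm]
    exact h
  refine ⟨fun j hj => ?_, ?_⟩
  · rw [← hm.period j, ← hm.dim j]
    exact finrank_map_inj _ _ fun x hx h0 => key x (le_tot gr hj hx) h0
  · have := dir_map per.toLinearMap (dir_of_indep hm.indep p) key
    have e : (fun j => (gr j).map per.toLinearMap) = Z := funext hm.period
    rwa [e] at this

theorem full {N : ℕ} (h1 : ∀ j, finrank ℚ (Z j) = d j) (h2 : iSupIndep Z) :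
    finrank ℚ (tot Z N) = S d N := by
  have hf : ∀ j, FiniteDimensional ℚ (Z j) := by
    intro j
    have := hm.finite j
    rw [← hm.period j]
    infer_instance
  rw [finrank_tot Z h2 hf, S]
  exact Finset.sum_congr rfl fun j _ => h1 j

/-- homogeneous: one dimension count gives weight `k` -/
theorem at_weight {k N : ℕ} (hk : k ≤ N) (h : d N < finrank ℚ (Z N) + d (N - k)) :
    finrank ℚ (Z k) = d k := by
  have := hm.domain
  rw [← hm.period k, ← hm.dim k]
  refine finrank_map_inj _ _ fun x hx h0 => ?_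
  by_contra hx0
  have := drop_hom per hm.mul hm.finite hk hx hx0 h0
  rw [hm.period, hm.dim, hm.dim] at this
  omega

theorem finrank_Z_le (j : ℕ) : finrank ℚ (Z j) ≤ d j := by
  have := hm.finite j
  rw [← hm.period j, ← hm.dim j]
  exact Submodule.finrank_map_le _ _

end

end Pool.Agent.Q187.ZD
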