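import Pool.Agent.Q187.ZD.Mot

/-! Zero-one laws for formal multiple zeta values. -/

set_option autoImplicit false

namespace Pool.Agent.Q187.ZD

open Module

/-- A graded domain `E` with finite dimensional parts `gr j` and a homomorphism `π` to an algebra
`H`; the image of `gr j` has dimension `d j`. -/
structure IsFormal {E H : Type} [CommRing E] [Algebra ℚ E] [CommRing H] [Algebra ℚ H]
    (d : ℕ → ℕ) (gr : ℕ → Submodule ℚ E) (π : E →ₐ[ℚ] H) : Prop where
  domain : IsDomain E
  mul : ∀ i j, ∀ x ∈ gr i, ∀ y ∈ gr j, x * y ∈ gr (i + j)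
  finite : ∀ j, FiniteDimensional ℚ (gr j)
  dim : ∀ j, finrank ℚ ((gr j).map π.toLinearMap) = d j

/-- there are no relations in weight `k` beyond those of `E` -/
def Complete {E H : Type} [CommRing E] [Algebra ℚ E] [CommRing H] [Algebra ℚ H]
    (gr : ℕ → Submodule ℚ E) (π : E →ₐ[ℚ] H) (k : ℕ) : Prop :=
  ∀ x ∈ gr k, π x = 0 → x = 0

section
variable {E H : Type} [CommRing E] [Algebra ℚ E] [CommRing H] [Algebra ℚ H] {d : ℕ → ℕ}
  {gr : ℕ → Submodule ℚ E} {π : E →ₐ[ℚ] H} (hf : IsFormal d gr π)
include hf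

theorem dim_le (j : ℕ) : d j ≤ finrank ℚ (gr j) := by
  have := hf.finite j
  rw [← hf.dim j]
  exact Submodule.finrank_map_le _ _

theorem complete_iff (k : ℕ) : Complete gr π k ↔ finrank ℚ (gr k) = d k := by
  have := hf.finite k
  constructor
  · intro h
    rw [← hf.dim k]
    exact (finrank_map_inj π.toLinearMap (gr k) h).symm
  · intro h x hx h0
    by_contra hx0
    have h5 : finrank ℚ ((gr k).map π.toLinearMap) < finrank ℚ (gr k) := by
      have h6 := LinearMap.finrank_range_add_finrank_ker (π.toLinearMap.domRestrict (gr k))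
      have h7 : LinearMap.range (π.toLinearMap.domRestrict (gr k)) = (gr k).map π.toLinearMap := by
        ext y
        simp only [LinearMap.mem_range, LinearMap.domRestrict_apply, Subtype.exists, exists_prop,
          Submodule.mem_map]
      rw [h7] at h6
      have h8 : 0 < finrank ℚ (LinearMap.ker (π.toLinearMap.domRestrict (gr k))) := by
        refine Nat.pos_of_ne_zero fun hz => hx0 ?_
        have hb : LinearMap.ker (π.toLinearMap.domRestrict (gr k)) = ⊥ :=
          Submodule.finrank_eq_zero.1 hz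
        have hm : (⟨x, hx⟩ : gr k) ∈ LinearMap.ker (π.toLinearMap.domRestrict (gr k)) := h0
        rw [hb, Submodule.mem_bot] at hm
        exact congrArg Subtype.val hm
      omega
    rw [hf.dim, h] at h5
    exact lt_irrefl _ h5

theorem extra {k : ℕ} (h : ¬ Complete gr π k) {N : ℕ} (hN : k ≤ N) :
    d N + finrank ℚ (gr (N - k)) ≤ finrank ℚ (gr N) := by
  have := hf.domain
  unfold Complete at h
  push Not at h
  obtain ⟨x, hx, h0, hx0⟩ := h
  have := drop_hom π hf.mul hf.finite hN hx hx0 h0
  rwa [hf.dim] at this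

theorem extra_sum {k : ℕ} (h : ¬ Complete gr π k) (m : ℕ) {N : ℕ} (hN : m * k ≤ N) :
    ∑ i ∈ Finset.range (m + 1), d (N - i * k) ≤ finrank ℚ (gr N) := by
  induction m generalizing N with
  | zero => simpa using dim_le hf N
  | succ m ih =>
    rw [Finset.sum_range_succ']
    have h1 : k ≤ N := by nlinarith
    have h2 := extra hf h h1
    have h3 : m * k ≤ N - k := by
      rw [Nat.succ_mul] at hN
      omega
    have h4 := ih h3
    have h5 : ∑ i ∈ Finset.range (m + 1), d (N - (i + 1) * k) =
        ∑ i ∈ Finset.range (m + 1), d (N - k - i * k) := by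
      refine Finset.sum_congr rfl fun i _ => ?_
      congr 1
      rw [Nat.succ_mul]
      omega
    rw [h5]
    simp only [Nat.zero_mul, Nat.sub_zero]
    omega

variable (hd : IsZagier d)
include hd

theorem formal_infinite :
    (∀ k, Complete gr π k) ↔ {N | Complete gr π N}.Infinite := by
  constructor
  · intro h
    have : {N | Complete gr π N} = Set.univ := Set.eq_univ_of_forall h
    rw [this]
    exact Set.infinite_univ
  · intro h k
    by_contra hk
    obtain ⟨N, hN, hlt⟩ := h.exists_gt (k + 2)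
    have h1 := extra hf hk (by omega : k ≤ N)
    have h2 := d_pos hd (by omega : 2 ≤ N - k)
    have h3 := dim_le hf (N - k)
    have h4 := (complete_iff hf N).1 hN
    omega

theorem formal_share {k : ℕ} (h : ¬ Complete gr π k) {N : ℕ} (hN : k + 2 ≤ N) :
    (1 + (2 ^ k : ℝ)⁻¹) * d N ≤ finrank ℚ (gr N) := by
  have h1 := extra hf h (by omega : k ≤ N)
  have h2 := d_pow hd (by omega : 2 ≤ N - k) k
  rw [Nat.sub_add_cancel (by omega)] at h2
  have h6 := dim_le hf (N - k)
  have h3 : (d N : ℝ) + d (N - k) ≤ finrank ℚ (gr N) := by exact_mod_cast (by omega)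
  have h4 : (d N : ℝ) ≤ 2 ^ k * d (N - k) := by exact_mod_cast h2
  have h5 : (2 ^ k : ℝ)⁻¹ * d N ≤ d (N - k) := by
    rw [inv_mul_le_iff₀ (by positivity)]
    exact h4
  linarith

theorem formal_liminf :
    (∀ k, Complete gr π k) ↔
      ∀ ε : ℝ, 0 < ε → ∀ N₀, ∃ N ≥ N₀, (finrank ℚ (gr N) : ℝ) ≤ (1 + ε) * d N := by
  constructor
  · intro h ε hε N₀
    refine ⟨N₀, le_rfl, ?_⟩
    rw [(complete_iff hf N₀).1 (h N₀)]
    have : (0 : ℝ) ≤ d N₀ := by positivity
    nlinarith
  · intro h k
    by_contra hk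
    have hpos : (0 : ℝ) < (2 ^ k : ℝ)⁻¹ := by positivity
    obtain ⟨N, hN, h1⟩ := h ((2 ^ k : ℝ)⁻¹ / 2) (by positivity) (k + 2)
    have h2 := formal_share hf hd hk hN
    have h3 : (1 : ℝ) ≤ d N := by exact_mod_cast d_pos hd (by omega : 2 ≤ N)
    nlinarith

end

end Pool.Agent.Q187.ZD
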