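import Pool.Agent.Q187.ZD.Real
import Pool.Agent.Results.MP_2000e9_nt.SumDimension

/-! Directness from small dimensions in a window. -/

set_option autoImplicit false

namespace Pool.Agent.Q187.ZD

open Module
open Pool.Agent.H447R2.MZ
open Pool.Agent.Results.MP_2000e9_nt.SumDimension (Z)

theorem Z_le (N : ℕ) : Z N ≤ Zs N := by
  unfold Zs Z
  rw [Submodule.span_le]
  rintro x ⟨t, k, h1, h2, h3, rfl⟩
  refine Submodule.subset_span ⟨t, k ∘ Fin.rev, fun i => h1 _, fun h => ?_, ?_, ?_⟩
  · have := h2 h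
    have e : Fin.rev (⟨0, h⟩ : Fin t) = ⟨t - 1, Nat.sub_lt h one_pos⟩ := by
      ext
      simp only [Fin.val_rev]
      omega
    rw [Function.comp_apply, e]
    exact this
  · rw [← h3]
    exact Fintype.sum_equiv Fin.revPerm _ _ fun i => rfl
  · let e : {m : Fin t → ℕ // StrictMono m ∧ ∀ i, 1 ≤ m i} ≃
        {k : Fin t → ℕ // StrictAnti k ∧ ∀ i, 1 ≤ k i} :=
      { toFun := fun m => ⟨m.1 ∘ Fin.rev, fun i j hij => m.2.1 (Fin.rev_lt_rev.2 hij),
          fun i => m.2.2 _⟩
        invFun := fun m => ⟨m.1 ∘ Fin.rev, fun i j hij => m.2.1 (Fin.rev_lt_rev.2 hij),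
          fun i => m.2.2 _⟩
        left_inv := fun m => by
          apply Subtype.ext
          funext i
          simp
        right_inv := fun m => by
          apply Subtype.ext
          funext i
          simp }
    rw [← e.tsum_eq]
    refine tsum_congr fun m => ?_
    exact Fintype.prod_equiv Fin.revPerm _ _ fun i => by simp [e]

theorem two_thirds (N : ℕ) : 2 * N / 3 + 1 ≤ finrank ℚ (tot Zs N) := by
  have h1 := Pool.Agent.Results.MP_2000e9_nt.SumDimension.result N
  have h2 : (⨆ n ∈ Finset.range (N + 1), Z n) ≤ tot Zs N := by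
    refine iSup₂_le fun n hn => (Z_le n).trans ?_
    rw [Finset.mem_range] at hn
    exact le_tot Zs (by omega)
  have h3 : FiniteDimensional ℚ (tot Zs N) := finite_tot Zs (fun j => finite_Zs j) N
  have h4 := Submodule.rank_mono h2
  rw [← Module.finrank_eq_rank ℚ (tot Zs N)] at h4
  exact_mod_cast h1.trans h4

/-- directness if the last `p` dimensions are small -/
theorem dir_of_window {p N : ℕ} (hp : p ≤ N)
    (h : ∑ j ∈ Finset.Ioc (N - p) N, finrank ℚ (Zs j) ≤ 2 * N / 3) : Dir Zs p := by
  by_contra hd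
  have h1 := drop_real hp hd
  have h2 := two_thirds N
  have h3 : ∑ j ∈ Finset.range (N + 1), finrank ℚ (Zs j) =
      ∑ j ∈ Finset.range (N - p + 1), finrank ℚ (Zs j) +
        ∑ j ∈ Finset.Ioc (N - p) N, finrank ℚ (Zs j) := by
    rw [Finset.range_eq_Ico, Finset.range_eq_Ico,
      ← Finset.sum_Ico_consecutive _ (Nat.zero_le (N - p + 1)) (by omega : N - p + 1 ≤ N + 1)]
    congr 1
    refine Finset.sum_congr ?_ fun _ _ => rfl
    ext j
    simp only [Finset.mem_Ico, Finset.mem_Ioc]
    omega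
  omega

end Pool.Agent.Q187.ZD
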