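import Pool.Agent.Q187.ZD.Mot

/-! Words in the letters `2, 3`: almost all words contain a given factor. -/

set_option autoImplicit false

namespace Pool.Agent.Q187.ZD.Hof

/-- the words in the letters `2` and `3` of weight (sum of the letters) `n` -/
def words : ℕ → Finset (List ℕ)
  | 0 => {[]}
  | 1 => ∅
  | 2 => {[2]}
  | n + 3 => (words (n + 1)).image (2 :: ·) ∪ (words n).image (3 :: ·)

/-- all letters are `2` or `3` -/
def Word (w : List ℕ) : Prop := ∀ a ∈ w, a = 2 ∨ a = 3

theorem words_succ (n : ℕ) :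
    words (n + 3) = (words (n + 1)).image (2 :: ·) ∪ (words n).image (3 :: ·) := by
  rw [words]

theorem mem_words (w : List ℕ) (n : ℕ) : w ∈ words n ↔ Word w ∧ w.sum = n := by
  induction n using Nat.strong_induction_on generalizing w with
  | _ n ih =>
  rcases n with _ | _ | _ | n
  · rw [words, Finset.mem_singleton]
    constructor
    · rintro rfl
      exact ⟨fun a ha => by simp at ha, rfl⟩
    · rintro ⟨hw, h0⟩
      rcases w with _ | ⟨a, w⟩
      · rfl
      · have := hw a (by simp)
        rw [List.sum_cons] at h0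
        omega
  · rw [words]
    simp only [Finset.notMem_empty, false_iff]
    rintro ⟨hw, h0⟩
    rcases w with _ | ⟨a, w⟩
    · simp at h0
    · have := hw a (by simp)
      rw [List.sum_cons] at h0
      omega
  · rw [words, Finset.mem_singleton]
    constructor
    · rintro rfl
      exact ⟨fun a ha => by simp at ha; exact Or.inl ha, rfl⟩
    · rintro ⟨hw, h0⟩
      rcases w with _ | ⟨a, w⟩
      · simp at h0
      · have h1 := hw a (by simp)
        rw [List.sum_cons] at h0
        rcases w with _ | ⟨b, w⟩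
        · simp at h0
          rw [h0]
        · have h2 := hw b (by simp)
          rw [List.sum_cons] at h0
          omega
  · have e : n + 1 + 1 + 1 = n + 3 := rfl
    rw [e, words_succ, Finset.mem_union, Finset.mem_image, Finset.mem_image]
    constructor
    · rintro (⟨u, hu, rfl⟩ | ⟨u, hu, rfl⟩)
      · obtain ⟨h1, h2⟩ := (ih (n + 1) (by omega) u).1 hu
        refine ⟨fun a ha => ?_, by rw [List.sum_cons, h2]; omega⟩
        rcases List.mem_cons.1 ha with rfl | ha
        · exact Or.inl rfl
        · exact h1 a ha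
      · obtain ⟨h1, h2⟩ := (ih n (by omega) u).1 hu
        refine ⟨fun a ha => ?_, by rw [List.sum_cons, h2]; omega⟩
        rcases List.mem_cons.1 ha with rfl | ha
        · exact Or.inr rfl
        · exact h1 a ha
    · rintro ⟨hw, h0⟩
      rcases w with _ | ⟨a, w⟩
      · simp at h0
      · have h1 := hw a (by simp)
        rw [List.sum_cons] at h0
        have h2 : Word w := fun c hc => hw c (by simp [hc])
        rcases h1 with rfl | rfl
        · exact Or.inl ⟨w, (ih (n + 1) (by omega) w).2 ⟨h2, by omega⟩, rfl⟩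
        · exact Or.inr ⟨w, (ih n (by omega) w).2 ⟨h2, by omega⟩, rfl⟩

theorem cons_inj (a : ℕ) : Function.Injective (fun w : List ℕ => a :: w) :=
  fun _ _ h => (List.cons.inj h).2

theorem card_succ (n : ℕ) :
    (words (n + 3)).card = (words (n + 1)).card + (words n).card := by
  rw [words_succ, Finset.card_union_of_disjoint, Finset.card_image_of_injective _ (cons_inj 2),
    Finset.card_image_of_injective _ (cons_inj 3)]
  rw [Finset.disjoint_left]
  intro w h1 h2
  obtain ⟨u, -, rfl⟩ := Finset.mem_image.1 h1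
  obtain ⟨v, -, h⟩ := Finset.mem_image.1 h2
  have := (List.cons.inj h).1
  omega

/-- the number of words satisfies the recursion of Zagier -/
theorem isZagier : IsZagier (fun n => (words n).card) :=
  ⟨by simp [words], by simp [words], by simp [words], fun n => card_succ n⟩

section
variable (v : List ℕ)

open Classical in
/-- the number of words of weight `n` without the factor `v` and without the prefix `u` -/
noncomputable def A (u : List ℕ) (n : ℕ) : ℕ :=
  ((words n).filter fun w => ¬ v <:+: w ∧ ¬ u <+: w).card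

open Classical in
/-- the number of words of weight `n` without the factor `v` -/
noncomputable def avoid (n : ℕ) : ℕ := ((words n).filter fun w => ¬ v <:+: w).card

theorem A_nil (n : ℕ) : A v [] n = 0 := by
  classical
  rw [A, Finset.card_eq_zero, Finset.filter_eq_empty_iff]
  intro w _ h
  exact h.2 List.nil_prefix

theorem avoid_le_A (n : ℕ) : avoid v n ≤ A v v n := by
  classical
  rw [avoid, A]
  refine Finset.card_le_card fun w hw => ?_
  rw [Finset.mem_filter] at hw ⊢
  exact ⟨hw.1, hw.2, fun h => hw.2 h.isInfix⟩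

theorem avoid_le (n : ℕ) : avoid v n ≤ (words n).card := by
  classical
  exact Finset.card_filter_le _ _

theorem A_cons_two (u : List ℕ) (n : ℕ) : A v (2 :: u) (n + 3) ≤ A v u (n + 1) + avoid v n := by
  classical
  have h : (words (n + 3)).filter (fun w => ¬ v <:+: w ∧ ¬ (2 :: u) <+: w) ⊆
      ((words (n + 1)).filter (fun w => ¬ v <:+: w ∧ ¬ u <+: w)).image (2 :: ·) ∪
        ((words n).filter (fun w => ¬ v <:+: w)).image (3 :: ·) := by
    intro w hw
    rw [Finset.mem_filter, words_succ, Finset.mem_union, Finset.mem_image, Finset.mem_image] at hw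
    obtain ⟨h1 | h1, h2, h3⟩ := hw
    · obtain ⟨x, hx, rfl⟩ := h1
      refine Finset.mem_union_left _ (Finset.mem_image.2 ⟨x, Finset.mem_filter.2 ⟨hx, ?_, ?_⟩, rfl⟩)
      · exact fun h => h2 (h.trans (List.suffix_cons _ _).isInfix)
      · exact fun h => h3 ((List.prefix_cons_inj 2).2 h)
    · obtain ⟨x, hx, rfl⟩ := h1
      refine Finset.mem_union_right _ (Finset.mem_image.2 ⟨x, Finset.mem_filter.2 ⟨hx, ?_⟩, rfl⟩)
      exact fun h => h2 (h.trans (List.suffix_cons _ _).isInfix)
  refine (Finset.card_le_card h).trans ((Finset.card_union_le _ _).trans ?_)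
  exact Nat.add_le_add Finset.card_image_le Finset.card_image_le

theorem A_cons_three (u : List ℕ) (n : ℕ) :
    A v (3 :: u) (n + 3) ≤ A v u n + avoid v (n + 1) := by
  classical
  have h : (words (n + 3)).filter (fun w => ¬ v <:+: w ∧ ¬ (3 :: u) <+: w) ⊆
      ((words n).filter (fun w => ¬ v <:+: w ∧ ¬ u <+: w)).image (3 :: ·) ∪
        ((words (n + 1)).filter (fun w => ¬ v <:+: w)).image (2 :: ·) := by
    intro w hw
    rw [Finset.mem_filter, words_succ, Finset.mem_union, Finset.mem_image, Finset.mem_image] at hw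
    obtain ⟨h1 | h1, h2, h3⟩ := hw
    · obtain ⟨x, hx, rfl⟩ := h1
      refine Finset.mem_union_right _ (Finset.mem_image.2 ⟨x, Finset.mem_filter.2 ⟨hx, ?_⟩, rfl⟩)
      exact fun h => h2 (h.trans (List.suffix_cons _ _).isInfix)
    · obtain ⟨x, hx, rfl⟩ := h1
      refine Finset.mem_union_left _ (Finset.mem_image.2 ⟨x, Finset.mem_filter.2 ⟨hx, ?_, ?_⟩, rfl⟩)
      · exact fun h => h2 (h.trans (List.suffix_cons _ _).isInfix)
      · exact fun h => h3 ((List.prefix_cons_inj 3).2 h)
  refine (Finset.card_le_card h).trans ((Finset.card_union_le _ _).trans ?_)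
  exact Nat.add_le_add Finset.card_image_le Finset.card_image_le

/-- a bound for the words without the factor `v` improves for words without the prefix `u` -/
theorem A_bound {c : ℝ} {J : ℕ} (h : ∀ n ≥ J, (avoid v n : ℝ) ≤ c * (words n).card)
    (u : List ℕ) (hu : Word u) (n : ℕ) (hn : J + 3 * u.length ≤ n) :
    (A v u n : ℝ) ≤ c * ((words n).card - (words (n - u.sum)).card) := by
  induction u generalizing n with
  | nil => simp [A_nil]
  | cons b u ih =>
    have hu' : Word u := fun a ha => hu a (by simp [ha])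
    rw [List.length_cons] at hn
    obtain ⟨m, rfl⟩ : ∃ m, n = m + 3 := ⟨n - 3, by omega⟩
    have hcard : ((words (m + 3)).card : ℝ) = (words (m + 1)).card + (words m).card := by
      exact_mod_cast card_succ m
    rcases hu b (by simp) with rfl | rfl
    · have h1 : (A v (2 :: u) (m + 3) : ℝ) ≤ A v u (m + 1) + avoid v m := by
        exact_mod_cast A_cons_two v u m
      have h2 := ih hu' (m + 1) (by omega)
      have h3 := h m (by omega)
      rw [List.sum_cons, hcard]
      have e : m + 3 - (2 + u.sum) = m + 1 - u.sum := by omega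
      rw [e]
      nlinarith
    · have h1 : (A v (3 :: u) (m + 3) : ℝ) ≤ A v u m + avoid v (m + 1) := by
        exact_mod_cast A_cons_three v u m
      have h2 := ih hu' m (by omega)
      have h3 := h (m + 1) (by omega)
      rw [List.sum_cons, hcard]
      have e : m + 3 - (3 + u.sum) = m - u.sum := by omega
      rw [e]
      nlinarith

theorem sum_le (u : List ℕ) (hu : Word u) : u.sum ≤ 3 * u.length := by
  induction u with
  | nil => simp
  | cons b u ih =>
    have h1 := ih fun a ha => hu a (by simp [ha])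
    have h2 := hu b (by simp)
    rw [List.sum_cons, List.length_cons]
    omega

theorem avoid_bound (hv : Word v) (i : ℕ) : ∃ J, ∀ n ≥ J,
    (avoid v n : ℝ) ≤ (1 - (2 ^ v.sum : ℝ)⁻¹) ^ i * (words n).card := by
  have h1 : (2 ^ v.sum : ℝ)⁻¹ ≤ 1 := inv_le_one_of_one_le₀ (one_le_pow₀ (by norm_num))
  induction i with
  | zero =>
    refine ⟨0, fun n _ => ?_⟩
    rw [pow_zero, one_mul]
    exact_mod_cast avoid_le v n
  | succ i ih =>
    obtain ⟨J, hJ⟩ := ih
    have hc : (0 : ℝ) ≤ (1 - (2 ^ v.sum : ℝ)⁻¹) ^ i := pow_nonneg (by linarith) i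
    refine ⟨J + 3 * v.length + v.sum + 2, fun n hn => ?_⟩
    have h2 := A_bound v hJ v hv n (by omega)
    have h3 : (avoid v n : ℝ) ≤ A v v n := by exact_mod_cast avoid_le_A v n
    have h4 := d_pow isZagier (by omega : 2 ≤ n - v.sum) v.sum
    rw [Nat.sub_add_cancel (by omega)] at h4
    have h5 : ((words n).card : ℝ) ≤ 2 ^ v.sum * (words (n - v.sum)).card := by exact_mod_cast h4
    have h6 : (2 ^ v.sum : ℝ)⁻¹ * (words n).card ≤ (words (n - v.sum)).card := by
      rw [inv_mul_le_iff₀ (by positivity)]
      exact h5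
    calc (avoid v n : ℝ) ≤ (1 - (2 ^ v.sum : ℝ)⁻¹) ^ i *
          ((words n).card - (words (n - v.sum)).card) := h3.trans h2
      _ ≤ (1 - (2 ^ v.sum : ℝ)⁻¹) ^ i * ((1 - (2 ^ v.sum : ℝ)⁻¹) * (words n).card) :=
          mul_le_mul_of_nonneg_left (by linarith) hc
      _ = _ := by ring

/-- almost all words contain the factor `v` -/
theorem avoid_small (hv : Word v) {ε : ℝ} (hε : 0 < ε) : ∃ J, ∀ n ≥ J,
    (avoid v n : ℝ) ≤ ε * (words n).card := by
  have h1 : (2 ^ v.sum : ℝ)⁻¹ ≤ 1 := inv_le_one_of_one_le₀ (one_le_pow₀ (by norm_num))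
  have h2 : (0 : ℝ) < (2 ^ v.sum : ℝ)⁻¹ := by positivity
  obtain ⟨i, hi⟩ := exists_pow_lt_of_lt_one hε (by linarith : 1 - (2 ^ v.sum : ℝ)⁻¹ < 1)
  obtain ⟨J, hJ⟩ := avoid_bound v hv i
  refine ⟨J, fun n hn => (hJ n hn).trans ?_⟩
  exact mul_le_mul_of_nonneg_right hi.le (by positivity)

end

end Pool.Agent.Q187.ZD.Hof
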